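import Mathlib

/-!
# Project RN (MP_81dc49_nt): basic definitions

`F` is a finite field with `q = Fintype.card F` elements.
-/

set_option autoImplicit false
set_option linter.unusedSectionVars false

namespace Pool.RN

open Polynomial

section Arith

variable (F : Type) [Field F] [Fintype F]

theorem finite_pol (n : ℕ) : {f : F[X] | f.natDegree ≤ n}.Finite := by
  have h : {f : F[X] | f.natDegree ≤ n} ⊆
      Set.range (fun c : Fin (n + 1) → F => ∑ i, C (c i) * X ^ (i : ℕ)) := by
    intro f hf
    refine ⟨fun i => f.coeff i, ?_⟩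
    have := f.as_sum_range_C_mul_X_pow' (Nat.lt_succ_of_le hf)
    conv_rhs => rw [this, Finset.sum_range]
  exact (Set.finite_range _).subset h

theorem finite_mon (n : ℕ) : {f : F[X] | f.Monic ∧ f.natDegree = n}.Finite :=
  (finite_pol F n).subset fun _ hf => hf.2.le

/-- The polynomials of degree at most `n`. -/
noncomputable def Pol (n : ℕ) : Finset F[X] := (finite_pol F n).toFinset

/-- The monic polynomials of degree `n`. -/
noncomputable def Mon (n : ℕ) : Finset F[X] := (finite_mon F n).toFinset

variable {F}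

@[simp] theorem mem_Pol {n : ℕ} {f : F[X]} : f ∈ Pol F n ↔ f.natDegree ≤ n := by
  simp [Pol]

@[simp] theorem mem_Mon {n : ℕ} {f : F[X]} : f ∈ Mon F n ↔ f.Monic ∧ f.natDegree = n := by
  simp [Mon]

variable (F)

open Classical in
/-- The monic irreducible polynomials of degree `d`. -/
noncomputable def Irr (d : ℕ) : Finset F[X] := (Mon F d).filter Irreducible

variable {F}

@[simp] theorem mem_Irr {d : ℕ} {f : F[X]} :
    f ∈ Irr F d ↔ (f.Monic ∧ f.natDegree = d) ∧ Irreducible f := by
  simp [Irr]

open Classical in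
/-- The monic irreducible factors of `f` (without multiplicity). -/
noncomputable def pf (f : F[X]) : Finset F[X] :=
  (UniqueFactorizationMonoid.normalizedFactors f).toFinset

open Classical in
/-- The multiplicity of `P` in `f`. -/
noncomputable def vv (P f : F[X]) : ℕ := (UniqueFactorizationMonoid.normalizedFactors f).count P

open Classical in
/-- The Moebius function. -/
noncomputable def mu (f : F[X]) : ℂ := if Squarefree f then (-1) ^ (pf f).card else 0

/-- `b_n = sum of psi over the monic polynomials of degree n`. -/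
noncomputable def bb (ψ : F[X] → ℂ) (n : ℕ) : ℂ := ∑ f ∈ Mon F n, ψ f

/-- `sum of mu * psi over the monic polynomials of degree n`. -/
noncomputable def mm (ψ : F[X] → ℂ) (n : ℕ) : ℂ := ∑ f ∈ Mon F n, mu f * ψ f

/-- `a_n = sum over the monic f of degree n of Lambda(f) psi(f)` for completely multiplicative
`psi`, where `Lambda (P ^ k) = deg P`. -/
noncomputable def aa (ψ : F[X] → ℂ) (n : ℕ) : ℂ :=
  ∑ d ∈ n.divisors, ∑ P ∈ Irr F d, (d : ℂ) * ψ P ^ (n / d)

/-- Completely multiplicative functions. -/
structure CMul (ψ : F[X] → ℂ) : Prop where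
  one : ψ 1 = 1
  mul : ∀ f g, ψ (f * g) = ψ f * ψ g

/-- The function on polynomials given by a Dirichlet character modulo `M`. -/
noncomputable def dir {M : F[X]} (χ : MulChar (AdjoinRoot M) ℂ) (f : F[X]) : ℂ :=
  χ (AdjoinRoot.mk M f)

theorem CMul.dir {M : F[X]} (χ : MulChar (AdjoinRoot M) ℂ) : CMul (Pool.RN.dir χ) :=
  ⟨by simp [Pool.RN.dir], fun f g => by simp [Pool.RN.dir]⟩

theorem mem_pf {f P : F[X]} (hf : f ≠ 0) : P ∈ pf f ↔ P.Monic ∧ Irreducible P ∧ P ∣ f := by
  classical
  unfold pf
  rw [Multiset.mem_toFinset, UniqueFactorizationMonoid.mem_normalizedFactors_iff' hf]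
  constructor
  · rintro ⟨h1, h2, h3⟩
    refine ⟨?_, h1, h3⟩
    rw [← h2]
    exact monic_normalize h1.ne_zero
  · rintro ⟨h1, h2, h3⟩
    exact ⟨h2, h1.normalize_eq_self, h3⟩

/-- The function `prod over the prime factors P of f of (- c P)`. -/
noncomputable def wf (c : F[X] → ℂ) (f : F[X]) : ℂ := ∏ P ∈ pf f, (- c P)

end Arith

end Pool.RN
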