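import Mathlib

/-!
# Root numbers of elliptic curves over `F(t)` (MP_81dc49_nt): definitions

`F` is a finite field, an elliptic curve over `F(t)` is given by an integral Weierstrass equation
`W : y^2 + a1 x y + a3 y = x^3 + a2 x^2 + a4 x + a6` over `F[t]` (here `F[X]`).
-/

set_option autoImplicit false

namespace Pool.RN

open Polynomial

/-- The Weierstrass cubic `W` has a node with rational tangents: an admissible change of variables
brings it into the form `y^2 + a x y = x^3` with `a` invertible. -/
def SplitNode {R : Type} [CommRing R] (W : WeierstrassCurve R) : Prop :=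
  ∃ (C : WeierstrassCurve.VariableChange R) (a : R), IsUnit a ∧ C • W = ⟨a, 0, 0, 0, 0⟩

section

variable {F : Type} [Field F]

/-- The reduction at `t = infinity` of an equation with `deg a_i <= i n`: the coefficients of
`t^(i n)` in the `a_i`, that is, `t^(-i n) a_i` at infinity. -/
noncomputable def redInf (n : ℕ) (W : WeierstrassCurve F[X]) : WeierstrassCurve F :=
  ⟨W.a₁.coeff n, W.a₂.coeff (2 * n), W.a₃.coeff (3 * n), W.a₄.coeff (4 * n), W.a₆.coeff (6 * n)⟩

open Classical in
/-- The number of places of split multiplicative reduction of `W`: the monic irreducible `P` such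
that `W` modulo `P` has a node with rational tangents, and infinity if the same holds there. -/
noncomputable def splitPlaces (n : ℕ) (W : WeierstrassCurve F[X]) : ℕ :=
  {P : F[X] | P.Monic ∧ Irreducible P ∧ SplitNode (W.map (AdjoinRoot.mk P))}.ncard +
    if SplitNode (redInf n W) then 1 else 0

/-- The root number of a curve which has good or multiplicative reduction at all places. -/
noncomputable def rootNumber (n : ℕ) (W : WeierstrassCurve F[X]) : ℤ := (-1) ^ splitPlaces n W

variable (F) in
/-- The equations of height `n` (`deg a_i <= i n`) such that `c4` and the discriminant have no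
common zero on the projective line and `c4` does not vanish at infinity. -/
def Fam (n : ℕ) : Set (WeierstrassCurve F[X]) :=
  {W | W.a₁.natDegree ≤ n ∧ W.a₂.natDegree ≤ 2 * n ∧ W.a₃.natDegree ≤ 3 * n ∧
    W.a₄.natDegree ≤ 4 * n ∧ W.a₆.natDegree ≤ 6 * n ∧ IsCoprime W.c₄ W.Δ ∧
    W.c₄.coeff (4 * n) ≠ 0}

end

end Pool.RN
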