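import Pool.Agent.H48.RN.Base

/-!
# Project RN: the torsor `sigma(Y) = (T - x) Y` over `k((w))`, `x = - w^(1-q)`

`F` finite field with `q` elements, `k` an algebraic closure of `F`, `M` a monic polynomial over `F`
of degree `m`.  Elements of `Omega[T]/M` are represented by polynomials `Y` of degree `< m`.
The pole order at infinity is minus the order of a Laurent series in `w`.
-/

set_option autoImplicit false
set_option linter.unusedSectionVars false

namespace Pool.RN

open Polynomial

section EE

/-- The field `k((w))` of Laurent series in which everything takes place. -/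
def EE (k : Type) [Field k] : Type := HahnSeries ℤ k

noncomputable instance (k : Type) [Field k] : Field (EE k) := inferInstanceAs (Field (HahnSeries ℤ k))

noncomputable instance (R k : Type) [CommSemiring R] [Field k] [Algebra R k] : Algebra R (EE k) :=
  ((HahnSeries.C : k →+* HahnSeries ℤ k).comp (algebraMap R k)).toAlgebra

instance (R k : Type) [CommSemiring R] [Field k] [Algebra R k] : IsScalarTower R k (EE k) :=
  IsScalarTower.of_algebraMap_eq (fun _ => rfl)

variable {k : Type} [Field k]

/-- The order of a Laurent series (its value at `0` is `0`). -/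
noncomputable def od (x : EE k) : ℤ := HahnSeries.order (Γ := ℤ) (R := k) x

/-- The power `w^n`. -/
noncomputable def ww (k : Type) [Field k] (n : ℤ) : EE k := HahnSeries.single (R := k) n 1

theorem od_mul {x y : EE k} (hx : x ≠ 0) (hy : y ≠ 0) : od (x * y) = od x + od y :=
  HahnSeries.order_mul (Γ := ℤ) (R := k) hx hy

theorem od_add {x y : EE k} (h : x + y ≠ 0) : min (od x) (od y) ≤ od (x + y) :=
  HahnSeries.min_order_le_order_add (Γ := ℤ) (R := k) h

theorem od_ww (n : ℤ) : od (ww k n) = n := HahnSeries.order_single (R := k) one_ne_zero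

theorem od_algebraMap (c : k) : od (algebraMap k (EE k) c) = 0 :=
  HahnSeries.order_C (Γ := ℤ) (R := k) (r := c)

theorem od_smul {c : k} (hc : c ≠ 0) (x : EE k) : od (c • x) = od x := by
  by_cases hx : x = 0
  · simp [hx]
  · rw [Algebra.smul_def, od_mul _ hx, od_algebraMap, zero_add]
    exact (_root_.map_ne_zero _).2 hc

/-- The coefficient of `w^n`. -/
noncomputable def cf (x : EE k) (n : ℤ) : k := HahnSeries.coeff (Γ := ℤ) (R := k) x n

theorem cf_smul (c : k) (x : EE k) (n : ℤ) : cf (c • x) n = c * cf x n := by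
  rw [Algebra.smul_def]
  exact congrArg (fun z : HahnSeries ℤ k => z.coeff n)
    (HahnSeries.C_mul_eq_smul (Γ := ℤ) (R := k) (r := c) (x := x))

theorem cf_sub (x y : EE k) (n : ℤ) : cf (x - y) n = cf x n - cf y n :=
  HahnSeries.coeff_sub (Γ := ℤ) (R := k) (x := x) (y := y) (a := n)

theorem cf_add (x y : EE k) (n : ℤ) : cf (x + y) n = cf x n + cf y n :=
  HahnSeries.coeff_add (Γ := ℤ) (R := k) (x := x) (y := y) (a := n)

theorem cf_od {x : EE k} (hx : x ≠ 0) : cf x (od x) ≠ 0 := by
  intro h
  exact hx (HahnSeries.coeff_order_eq_zero.1 h)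

theorem cf_lt {x : EE k} {n : ℤ} (hn : n < od x) : cf x n = 0 :=
  HahnSeries.coeff_eq_zero_of_lt_order (Γ := ℤ) (R := k) hn

theorem ext_cf {x y : EE k} (h : ∀ n, cf x n = cf y n) : x = y :=
  HahnSeries.ext (Γ := ℤ) (R := k) (funext h)

theorem le_od {x : EE k} {n : ℤ} (hx : x ≠ 0) (h : ∀ i < n, cf x i = 0) : n ≤ od x := by
  by_contra hlt
  exact cf_od hx (h _ (not_le.1 hlt))

theorem exists_lead {x y : EE k} (hx : x ≠ 0) (hy : y ≠ 0) (h : od x = od y) :
    ∃ c : k, c ≠ 0 ∧ (x - c • y = 0 ∨ od x < od (x - c • y)) := by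
  refine ⟨cf x (od x) / cf y (od y), div_ne_zero (cf_od hx) (cf_od hy), ?_⟩
  by_cases h0 : x - (cf x (od x) / cf y (od y)) • y = 0
  · exact Or.inl h0
  · right
    have h1 : od x + 1 ≤ od (x - (cf x (od x) / cf y (od y)) • y) := by
      apply le_od h0
      intro i hi
      rw [cf_sub, cf_smul]
      rcases (Int.lt_add_one_iff.1 hi).lt_or_eq with hi' | hi'
      · rw [cf_lt hi', cf_lt (lt_of_lt_of_eq hi' h)]
        simp
      · subst hi'
        have := cf_od hy
        rw [h, div_mul_cancel₀ _ this, sub_self]
    omega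

end EE

section Geo

variable (F k : Type) [Field F] [Fintype F] [Field k] [Algebra F k]

/-- `x = - w^(1-q)`. -/
noncomputable def xx : EE k := -ww k (1 - (Fintype.card F : ℤ))

variable {k}

/-- The coefficientwise `q`-th power. -/
noncomputable def tw {L : Type} [CommRing L] [Algebra F L] (Y : L[X]) : L[X] :=
  Y.map (FiniteField.frobeniusAlgHom F L).toRingHom

variable {F}

/-- `Y` represents a unit of `Omega[T]/M` with `sigma(Y) = (T - x) Y`. -/
structure IsSol (M : F[X]) {L : Type} [Field L] [Algebra F L] (x : L) (Y : L[X]) : Prop where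
  deg : Y.degree < M.degree
  cop : IsCoprime Y (M.map (algebraMap F L))
  eq : M.map (algebraMap F L) ∣ tw F Y - (X - C x) * Y

/-- The class of `g * Y` modulo `M`. -/
noncomputable def act (M : F[X]) {L : Type} [Field L] [Algebra F L] (g : F[X]) (Y : L[X]) : L[X] :=
  (g.map (algebraMap F L) * Y) %ₘ (M.map (algebraMap F L))

/-- Polynomials in `x` (variable `none`) and the coordinates of `Y` (variables `some i`). -/
abbrev PP (k : Type) [Field k] (m : ℕ) : Type := MvPolynomial (Option (Fin m)) k

/-- Evaluation of a polynomial at `x` and the coordinates of `Y`. -/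
noncomputable def ev {L : Type} [Field L] [Algebra k L] (m : ℕ) (x : L) (Y : L[X]) :
    PP k m →ₐ[k] L :=
  MvPolynomial.aeval (fun o : Option (Fin m) => o.elim x (fun i => Y.coeff i))

variable (F) in
/-- The weight of a monomial: `x` has weight `q - 1` and the coordinates have weight `1`. -/
def wt {m : ℕ} (s : Option (Fin m) →₀ ℕ) : ℕ :=
  (Fintype.card F - 1) * s none + ∑ i, s (some i)

variable (F k) in
/-- The polynomials of weight at most `d`. -/
def WW (m d : ℕ) : Submodule k (PP k m) where
  carrier := {P | ∀ s ∈ P.support, wt F s ≤ d}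
  add_mem' := by
    classical
    intro P Q hP hQ s hs
    rcases Finset.mem_union.1 (MvPolynomial.support_add hs) with h | h
    · exact hP s h
    · exact hQ s h
  zero_mem' := by intro s hs; simp at hs
  smul_mem' := by
    intro c P hP s hs
    exact hP s (MvPolynomial.support_smul hs)

variable (F) in
/-- The functions of weight at most `d`. -/
noncomputable def RR (m : ℕ) (Y : (EE k)[X]) (d : ℕ) : Submodule k (EE k) :=
  (WW F k m d).map (ev (k := k) m (xx F k) Y).toLinearMap

/-- `(x1, Y1)` is a point of the component given by `Y`: all relations between `x` and the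
coordinates of `Y` hold at `(x1, Y1)`. -/
def IsPt (M : F[X]) (Y : (EE k)[X]) (x1 : k) (Y1 : k[X]) : Prop :=
  Y1.degree < M.degree ∧
    ∀ P : PP k M.natDegree, ev M.natDegree (xx F k) Y P = 0 → ev M.natDegree x1 Y1 P = 0

/-- Membership in the group `H`. -/
def InH (M : F[X]) (Y : (EE k)[X]) (g : F[X]) : Prop :=
  g.degree < M.degree ∧ IsCoprime g M ∧
    ∀ P : PP k M.natDegree, ev M.natDegree (xx F k) Y P = 0 →
      ev M.natDegree (xx F k) (act M g Y) P = 0

open Classical in
/-- The group `H`, represented by polynomials of degree `< m`. -/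
noncomputable def HH (M : F[X]) (Y : (EE k)[X]) : Finset F[X] :=
  (Pol F M.natDegree).filter (InH M Y)

theorem mem_HH {M : F[X]} {Y : (EE k)[X]} {g : F[X]} : g ∈ HH M Y ↔ InH M Y g := by
  classical
  unfold HH
  rw [Finset.mem_filter, mem_Pol]
  refine ⟨fun h => h.2, fun h => ⟨?_, h⟩⟩
  exact natDegree_le_natDegree h.1.le

/-- The solution with which we work. -/
structure Good (M : F[X]) (Y : (EE k)[X]) : Prop where
  sol : IsSol M (xx F k) Y
  ord : ∀ i, Y.coeff i ≠ 0 → -1 ≤ od (Y.coeff i)

variable (F k) in
/-- The elements of the field with `q^j` elements in `k`. -/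
noncomputable def Fx (j : ℕ) : Finset k := by
  classical
  exact (X ^ (Fintype.card F ^ j) - X : k[X]).roots.toFinset

theorem mem_Fx {j : ℕ} (hj : 1 ≤ j) {x : k} : x ∈ Fx F k j ↔ x ^ (Fintype.card F ^ j) = x := by
  classical
  unfold Fx
  have h1 : 1 < Fintype.card F ^ j := Nat.one_lt_pow (by omega) Fintype.one_lt_card
  have h2 : (X ^ (Fintype.card F ^ j) - X : k[X]) ≠ 0 := by
    exact FiniteField.X_pow_card_sub_X_ne_zero _ h1
  rw [Multiset.mem_toFinset, mem_roots h2]
  simp [sub_eq_zero]

/-- `prod over i < j of (T - x^(q^i))`. -/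
noncomputable def Nrm (F : Type) [Fintype F] {k : Type} [Field k] (x : k) (j : ℕ) : k[X] :=
  ∏ i ∈ Finset.range j, (X - C (x ^ (Fintype.card F ^ i)))

variable (F) in
/-- The norm of `T - x` from `F_{q^j}[T]` to `F[T]`. -/
noncomputable def nm (x : k) (j : ℕ) : F[X] := (minpoly F x) ^ (j / (minpoly F x).natDegree)

variable (F k) in
/-- The `q^r`-th power map of `k`. -/
noncomputable def frr (r : ℕ) : k →+* k := ((FiniteField.frobeniusAlgHom F k) ^ r : k →ₐ[F] k)

theorem frr_apply (r : ℕ) (x : k) : frr F k r x = x ^ (Fintype.card F ^ r) := by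
  have h : ∀ r : ℕ, ∀ x : k, ((FiniteField.frobeniusAlgHom F k) ^ r : k →ₐ[F] k) x =
      x ^ (Fintype.card F ^ r) := by
    intro r
    induction r with
    | zero => intro x; simp
    | succ r ih =>
      intro x
      rw [pow_succ, AlgHom.mul_apply, ih]
      rw [FiniteField.coe_frobeniusAlgHom, ← pow_mul, pow_succ, mul_comm]
  exact h r x

/-- The entries of the multiplication by `g` on `F[T]/M`. -/
noncomputable def ag (M g : F[X]) (i j : ℕ) : F := ((g * X ^ j) %ₘ M).coeff i

variable (k) in
/-- The substitution `Y -> g Y` on polynomials in `x` and the coordinates of `Y`. -/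
noncomputable def sub (M g : F[X]) : PP k M.natDegree →ₐ[k] PP k M.natDegree :=
  MvPolynomial.aeval (fun o : Option (Fin M.natDegree) =>
    o.elim (MvPolynomial.X none)
      (fun i => ∑ j : Fin M.natDegree,
        MvPolynomial.C (algebraMap F k (ag M g i j)) * MvPolynomial.X (some j)))

variable (F k) in
/-- The field `k(x)`. -/
noncomputable def KK : IntermediateField k (EE k) := IntermediateField.adjoin k {xx F k}

/-- The field generated over `k(x)` by the coordinates of `Y`. -/
noncomputable def LL (F : Type) [Field F] [Fintype F] {k : Type} [Field k] (Y : (EE k)[X]) :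
    IntermediateField (KK F k) (EE k) :=
  IntermediateField.adjoin (KK F k) {z | ∃ i, z = Y.coeff i}

open Classical in
/-- The number of `x` in the field with `q^j` elements whose norm `nm x j` is in the class `u`
modulo `M`. -/
noncomputable def NN (M : F[X]) (k : Type) [Field k] [Algebra F k] (j : ℕ) (u : AdjoinRoot M) : ℕ :=
  ((Fx F k j).filter (fun x => AdjoinRoot.mk M (nm F x j) = u)).card

end Geo

end Pool.RN
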