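import Pool.Agent.H48.RN.Geo

/-!
# Project RN: statements of the analytic modules
-/

set_option autoImplicit false
set_option linter.unusedSectionVars false

namespace Pool.RN

open Polynomial

/-! ## Abstract lemmas -/

/-- NWT: Newton: a sequence `b` vanishing from `m` on has `a = - power sums of m - 1 numbers`. -/
def S_NWT : Prop := ∀ (b a : ℕ → ℂ) (m : ℕ), 1 ≤ m → b 0 = 1 → (∀ n, m ≤ n → b n = 0) →
  (∀ n : ℕ, (n : ℂ) * b n = ∑ j ∈ Finset.Icc 1 n, a j * b (n - j)) →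
  ∃ α : Fin (m - 1) → ℂ, ∀ j, 1 ≤ j → a j = - ∑ i, α i ^ j

/-- PWS: power sum lemma. -/
def S_PWS : Prop := ∀ (ι : Type) [Fintype ι] (α : ι → ℂ) (θ C : ℝ), 0 < θ →
  (∀ j : ℕ, 1 ≤ j → ‖∑ i, α i ^ j‖ ≤ C * θ ^ j) → ∀ i, ‖α i‖ ≤ θ

/-- MAJ: majorant lemma. -/
def S_MAJ : Prop := ∀ (m a : ℕ → ℂ) (A : ℕ → ℝ), m 0 = 1 →
  (∀ n : ℕ, (n : ℂ) * m n = ∑ j ∈ Finset.Icc 1 n, a j * m (n - j)) →
  (∀ j, 1 ≤ j → ‖a j‖ ≤ A j) → ∀ (u : ℝ) (N : ℕ), 0 < u →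
  ‖m N‖ * u ^ N ≤ Real.exp (∑ j ∈ Finset.Icc 1 N, A j * u ^ j / j)

/-- EXB: the exponent is small. -/
def S_EXB : Prop := ∀ (q : ℕ) (ε : ℝ), 2 ≤ q → 0 < ε → ∃ C : ℝ, ∀ m N : ℕ,
  ∑ j ∈ Finset.Icc 1 N, min ((q : ℝ) ^ j) (m * Real.sqrt q ^ j) *
      ((q : ℝ) ^ (-(1 / 2 + ε))) ^ j / j ≤ C + ε * m * Real.log q

/-! ## Polynomials over `F` -/

section

variable (F : Type) [Field F] [Fintype F]

/-- CRD: numbers of polynomials. -/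
def S_CRD : Prop := (∀ n, (Mon F n).card = Fintype.card F ^ n) ∧
  (∀ n, (Pol F n).card = Fintype.card F ^ (n + 1))

open Classical in
/-- DIS: distribution of the monic polynomials in the residue classes. -/
def S_DIS : Prop := ∀ (M : F[X]), M ≠ 0 → Finite (AdjoinRoot M) ∧
  ∀ (n : ℕ), M.natDegree ≤ n → ∀ a : AdjoinRoot M,
    ((Mon F n).filter (fun f => AdjoinRoot.mk M f = a)).card = Fintype.card F ^ (n - M.natDegree)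

/-- SZR: sums of a nontrivial character vanish. -/
def S_SZR : Prop := ∀ (M : F[X]), M ≠ 0 → ∀ χ : MulChar (AdjoinRoot M) ℂ, χ ≠ 1 →
  ∀ n, M.natDegree ≤ n → bb (dir χ) n = 0

/-- LGB: logarithmic derivative of the L-function. -/
def S_LGB : Prop := ∀ ψ : F[X] → ℂ, CMul ψ → ∀ n : ℕ,
  (n : ℂ) * bb ψ n = ∑ j ∈ Finset.Icc 1 n, aa ψ j * bb ψ (n - j)

/-- LGM: logarithmic derivative of its inverse. -/
def S_LGM : Prop := ∀ ψ : F[X] → ℂ, CMul ψ → ∀ n : ℕ,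
  (n : ℂ) * mm ψ n = ∑ j ∈ Finset.Icc 1 n, (- aa ψ j) * mm ψ (n - j)

/-- PRC: the number of monic irreducible polynomials. -/
def S_PRC : Prop := ∀ j, 1 ≤ j → ∑ d ∈ j.divisors, d * (Irr F d).card = Fintype.card F ^ j

/-- TRV: the trivial bound. -/
def S_TRV : Prop := ∀ ψ : F[X] → ℂ, (∀ f, ‖ψ f‖ ≤ 1) → ∀ j, 1 ≤ j →
  ‖aa ψ j‖ ≤ (Fintype.card F : ℝ) ^ j

/-- BDC: values of characters are bounded by one. -/
def S_BDC : Prop := ∀ (M : F[X]), M ≠ 0 → ∀ χ : MulChar (AdjoinRoot M) ℂ, ∀ f, ‖dir χ f‖ ≤ 1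

/-- RHB: the Riemann hypothesis for Dirichlet L-functions. -/
def S_RHB : Prop := ∀ (M : F[X]), M.Monic → 1 ≤ M.natDegree →
  ∀ χ : MulChar (AdjoinRoot M) ℂ, χ ≠ 1 → ∀ j, 1 ≤ j →
    ‖aa (dir χ) j‖ ≤ (M.natDegree : ℝ) * Real.sqrt (Fintype.card F) ^ j

/-- MOB: Moebius sums twisted by a nontrivial character. -/
def S_MOB : Prop := ∀ ε : ℝ, 0 < ε → ∃ C : ℝ, 0 < C ∧ ∀ (M : F[X]), M.Monic → 1 ≤ M.natDegree →
  ∀ χ : MulChar (AdjoinRoot M) ℂ, χ ≠ 1 → ∀ N : ℕ,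
    ‖mm (dir χ) N‖ ≤ C * (Fintype.card F : ℝ) ^ ((1 / 2 + ε) * N + ε * M.natDegree)

/-- MOP: Moebius sums over polynomials coprime to `M`. -/
def S_MOP : Prop := ∀ ε : ℝ, 0 < ε → ∃ C : ℝ, 0 < C ∧ ∀ (M : F[X]), M.Monic → 1 ≤ M.natDegree →
  ∀ N : ℕ, ‖mm (dir (1 : MulChar (AdjoinRoot M) ℂ)) N‖ ≤
    C * (Fintype.card F : ℝ) ^ ((1 / 2 + ε) * N + ε * M.natDegree)

variable {F} in
/-- The weight of squareful polynomials. -/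
noncomputable def kk (e : F[X]) : ℕ := ∏ P ∈ pf e, (vv P e - 1)

/-- SQF: the number of squareful polynomials, with weight. -/
def S_SQF : Prop := ∃ K : ℕ, ∀ j : ℕ, ((∑ e ∈ Mon F j, kk e : ℕ) : ℝ) ≤
  ((j : ℝ) + 1) ^ K * Real.sqrt (Fintype.card F) ^ j

/-- CNV: `wf c * psi` is the convolution of `mu c psi` and a function bounded by `kk`. -/
def S_CNV : Prop := ∀ c ψ : F[X] → ℂ, CMul c → CMul ψ → (∀ f, ‖ψ f‖ ≤ 1) →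
  (∀ P, P.Monic → Irreducible P → c P = 1 ∨ c P = -1 ∨ (c P = 0 ∧ ψ P = 0)) → ∀ N : ℕ,
  ‖∑ f ∈ Mon F N, wf c f * ψ f‖ ≤
    ∑ i ∈ Finset.range (N + 1), ‖mm (fun f => c f * ψ f) i‖ * ((∑ e ∈ Mon F (N - i), kk e : ℕ) : ℝ)

variable {F} in
/-- The function `c f = lambda ^ deg f * chi0 f`. -/
noncomputable def cc {M : F[X]} (χ₀ : MulChar (AdjoinRoot M) ℂ) (l : ℂ) (f : F[X]) : ℂ :=
  l ^ f.natDegree * dir χ₀ f

variable {F} in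
/-- `chi0` is a real character. -/
def IsReal {M : F[X]} (χ₀ : MulChar (AdjoinRoot M) ℂ) : Prop :=
  ∀ a, IsUnit a → χ₀ a = 1 ∨ χ₀ a = -1

/-- WSM: sums of `wf` twisted by characters. -/
def S_WSM : Prop := ∀ ε : ℝ, 0 < ε → ∃ C : ℝ, 0 < C ∧ ∀ (M : F[X]), M.Monic → 1 ≤ M.natDegree →
  ∀ (χ₀ ψ : MulChar (AdjoinRoot M) ℂ) (l : ℂ), IsReal χ₀ → (l = 1 ∨ l = -1) → ∀ N : ℕ,
    ‖∑ f ∈ Mon F N, wf (cc χ₀ l) f * dir ψ f‖ ≤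
      C * (Fintype.card F : ℝ) ^ ((1 / 2 + ε) * N + ε * M.natDegree)

open Classical in
/-- PAR: Parseval. -/
def S_PAR : Prop := ∀ (M : F[X]), M ≠ 0 → ∀ (W : F[X] → ℂ) (N : ℕ) (B : ℝ),
  (∀ ψ : MulChar (AdjoinRoot M) ℂ, ‖∑ f ∈ Mon F N, W f * dir ψ f‖ ≤ B) →
  ∀ T : Finset (AdjoinRoot M), (∀ a ∈ T, IsUnit a) →
    ∑ a ∈ T, ‖∑ f ∈ (Mon F N).filter (fun f => AdjoinRoot.mk M f = a), W f‖ ^ 2 ≤ B ^ 2

open Classical in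
/-- ANA: the mean square of `wf` over residue classes. -/
def S_ANA : Prop := ∀ ε : ℝ, 0 < ε → ∃ C : ℝ, 0 < C ∧ ∀ (M : F[X]), M.Monic → 1 ≤ M.natDegree →
  ∀ (χ₀ : MulChar (AdjoinRoot M) ℂ) (l : ℂ), IsReal χ₀ → (l = 1 ∨ l = -1) → ∀ N : ℕ,
  ∀ T : Finset (AdjoinRoot M), (∀ a ∈ T, IsUnit a) →
    ∑ a ∈ T, ‖∑ f ∈ (Mon F N).filter (fun f => AdjoinRoot.mk M f = a), wf (cc χ₀ l) f‖ ^ 2 ≤
      C * (Fintype.card F : ℝ) ^ ((1 + ε) * N + ε * M.natDegree)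

open Classical in
/-- ANB: the same for all polynomials of degree at most `D`, weighted by a function of the
degree. -/
def S_ANB : Prop := ∀ ε : ℝ, 0 < ε → ∃ C : ℝ, 0 < C ∧ ∀ (M : F[X]), M.Monic → 1 ≤ M.natDegree →
  ∀ (χ₀ : MulChar (AdjoinRoot M) ℂ) (l : ℂ), IsReal χ₀ → (l = 1 ∨ l = -1) → ∀ D : ℕ,
  ∀ w : ℕ → ℂ, (∀ i, ‖w i‖ ≤ 1) →
  ∀ T : Finset (AdjoinRoot M), (∀ a ∈ T, IsUnit a) →
    ∑ a ∈ T, ‖∑ f ∈ (Pol F D).filter (fun f => AdjoinRoot.mk M f = a),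
        w f.natDegree * wf (cc χ₀ l) f‖ ^ 2 ≤
      C * (Fintype.card F : ℝ) ^ ((1 + ε) * D + ε * M.natDegree)

end

/-! ## Points -/

section

variable (F k : Type) [Field F] [Fintype F] [Field k] [Algebra F k]

/-- PTS: `a_j` as a sum over the points of `k` in the field with `q^j` elements. -/
def S_PTS : Prop := ∀ ψ : F[X] → ℂ, CMul ψ → ∀ j, 1 ≤ j →
  aa ψ j = ∑ x ∈ Fx F k j, ψ (nm F x j)

/-- NMI: the norm polynomial. -/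
def S_NMI : Prop := ∀ j, 1 ≤ j → ∀ x ∈ Fx F k j,
  (nm F x j).Monic ∧ (nm F x j).map (algebraMap F k) = Nrm F x j

end

end Pool.RN
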