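import Pool.Agent.H48.RN.Stmts1

/-!
# Project RN: statements of the geometric modules

Everywhere `F` is a finite field, `k` an algebraically closed field which is algebraic over `F`,
`M` is monic of degree `m >= 1` and `Y` is the solution `Good M Y` (unless stated otherwise).
The weight function is `wt`, `q = Fintype.card F`, `h = (HH M Y).card`.
-/

set_option autoImplicit false
set_option linter.unusedSectionVars false

namespace Pool.RN

open Polynomial

section General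

variable (F k : Type) [Field F] [Fintype F] [Field k] [Algebra F k]

/-- SOL: the solution exists. -/
def S_SOL : Prop := ∀ (M : F[X]), M.Monic → 1 ≤ M.natDegree →
  ∃ Y : (EE k)[X], Good (k := k) M Y

/-- EVA: the action of `g` on solutions and on polynomials. -/
def S_EVA : Prop := ∀ (M : F[X]), M.Monic → 1 ≤ M.natDegree →
  ∀ (L : Type) [Field L] [Algebra F L] [Algebra k L] [IsScalarTower F k L] (x : L) (Y : L[X])
    (g : F[X]), Y.degree < M.degree → (act M g Y).degree < M.degree ∧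
    (∀ i, i < M.natDegree → (act M g Y).coeff i =
      ∑ j : Fin M.natDegree, algebraMap F L (ag M g i j) * Y.coeff j) ∧
    ∀ P : PP k M.natDegree, ev M.natDegree x (act M g Y) P = ev M.natDegree x Y (sub k M g P)

/-- SWT: the substitution does not increase the weight. -/
def S_SWT : Prop := ∀ (M g : F[X]) (d : ℕ) (P : PP k M.natDegree),
  P ∈ WW F k M.natDegree d → sub k M g P ∈ WW F k M.natDegree d

/-- ACT: the action on solutions. -/
def S_ACT : Prop := ∀ (M : F[X]), M.Monic → 1 ≤ M.natDegree →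
  ∀ (L : Type) [Field L] [Algebra F L] (x : L) (Y : L[X]), IsSol M x Y →
    (∀ g : F[X], IsCoprime g M → IsSol M x (act M g Y)) ∧
    (∀ g g' : F[X], act M g (act M g' Y) = act M (g * g') Y) ∧
    (∀ g g' : F[X], act M g Y = act M g' Y ↔ M ∣ g - g') ∧
    act M 1 Y = Y

/-- TOR: all solutions are of the form `g Y`. -/
def S_TOR : Prop := ∀ (M : F[X]), M.Monic → 1 ≤ M.natDegree →
  ∀ (L : Type) [Field L] [Algebra F L] (x : L) (Y Y' : L[X]), IsSol M x Y →
    Y'.degree < M.degree → M.map (algebraMap F L) ∣ tw F Y' - (X - C x) * Y' →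
    ∃ g : F[X], g.degree < M.degree ∧ Y' = act M g Y ∧
      (IsCoprime Y' (M.map (algebraMap F L)) → IsCoprime g M)

/-- TRX: `x` is transcendental and the order of a polynomial in `x`. -/
def S_TRX : Prop := ∀ p : k[X], p ≠ 0 → aeval (xx F k) p ≠ 0 ∧
  od (aeval (xx F k) p) = -(((Fintype.card F - 1) * p.natDegree : ℕ) : ℤ)

/-- MLT: weights and products. -/
def S_MLT : Prop := ∀ (m d e : ℕ) (P Q : PP k m), P ∈ WW F k m d → Q ∈ WW F k m e →
  P * Q ∈ WW F k m (d + e)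

variable {F}

/-- LAU: the Laurent lemma. -/
def S_LAU : Prop := ∀ (p s : ℕ) [Fact p.Prime] [CharP k p] (U : Submodule k (EE k)) (a : ℤ),
  Module.Finite k U → (∀ u ∈ U, u ≠ 0 → a ≤ od u ∧ od u < a + (p ^ s : ℕ)) →
  ∀ (n : ℕ) (v : Fin n → EE k), LinearIndependent k v → ∀ u : Fin n → EE k, (∀ i, u i ∈ U) →
    ∑ i, u i * v i ^ (p ^ s) = 0 → ∀ i, u i = 0

/-- SEM: semilinear maps have a kernel. -/
def S_SEM : Prop := ∀ (p s : ℕ) [Fact p.Prime] [CharP k p] (V W : Type) [AddCommGroup V]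
  [Module k V] [AddCommGroup W] [Module k W] [Module.Finite k V] [Module.Finite k W] (Φ : V →+ W),
  (∀ (c : k) (v : V), Φ (c • v) = c ^ (p ^ s) • Φ v) → Module.finrank k W < Module.finrank k V →
  ∃ v : V, v ≠ 0 ∧ Φ v = 0

end General

section Geom

variable {F k : Type} [Field F] [Fintype F] [Field k] [Algebra F k]
variable (M : F[X]) (Y : (EE k)[X])

/-! ### Galois theory -/

/-- INT: the coordinates are integral over `k[x]`. -/
def S_INT (F : Type) [Field F] [Fintype F] {k : Type} [Field k] (Y : (EE k)[X]) : Prop := ∀ i, IsIntegral (Algebra.adjoin k {xx F k}) (Y.coeff i)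

/-- FDL: the extension is finite. -/
def S_FDL (F : Type) [Field F] [Fintype F] {k : Type} [Field k] (Y : (EE k)[X]) : Prop := FiniteDimensional (KK F k) (LL F Y)

/-- NOR: the extension is normal. -/
def S_NOR (F : Type) [Field F] [Fintype F] {k : Type} [Field k] (Y : (EE k)[X]) : Prop := Normal (KK F k) (LL F Y)

/-- SEP: the extension is separable. -/
def S_SEP (F : Type) [Field F] [Fintype F] {k : Type} [Field k] (Y : (EE k)[X]) : Prop := Algebra.IsSeparable (KK F k) (LL F Y)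

/-- HGL: the Galois group is `H`. -/
def S_HGL : Prop :=
  (∀ τ : LL F Y ≃ₐ[KK F k] LL F Y, ∃ g ∈ HH M Y, ∀ i (hi : Y.coeff i ∈ LL F Y),
    ((τ ⟨Y.coeff i, hi⟩ : LL F Y) : EE k) = (act M g Y).coeff i) ∧
  (∀ g ∈ HH M Y, ∃ τ : LL F Y ≃ₐ[KK F k] LL F Y, ∀ i (hi : Y.coeff i ∈ LL F Y),
    ((τ ⟨Y.coeff i, hi⟩ : LL F Y) : EE k) = (act M g Y).coeff i) ∧
  (HH M Y).card = Module.finrank (KK F k) (LL F Y)

/-- GRP: `H` is a group. -/
def S_GRP : Prop := (∀ g g' : F[X], M ∣ g - g' → g'.degree < M.degree →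
    (IsCoprime g M ∧ ∀ P : PP k M.natDegree, ev M.natDegree (xx F k) Y P = 0 →
      ev M.natDegree (xx F k) (act M g Y) P = 0) → g' ∈ HH M Y) ∧
  (∃ g ∈ HH M Y, M ∣ g - 1) ∧
  (∀ g ∈ HH M Y, ∀ g' ∈ HH M Y, (g * g') %ₘ M ∈ HH M Y) ∧
  (∀ g ∈ HH M Y, ∃ g' ∈ HH M Y, M ∣ g * g' - 1) ∧ 1 ≤ (HH M Y).card

/-- INV: invariant functions are polynomials in `x`. -/
def S_INV : Prop := ∀ P : PP k M.natDegree,
  (∀ g ∈ HH M Y, ev M.natDegree (xx F k) (act M g Y) P = ev M.natDegree (xx F k) Y P) →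
  ∃ p : k[X], ev M.natDegree (xx F k) Y P = aeval (xx F k) p

/-- BAS: `h` functions which are independent over `k(x)`. -/
def S_BAS : Prop := ∃ (D₀ : ℕ) (e : Fin (HH M Y).card → PP k M.natDegree),
  (∀ i, e i ∈ WW F k M.natDegree D₀) ∧
  ∀ p : Fin (HH M Y).card → k[X],
    ∑ i, aeval (xx F k) (p i) * ev M.natDegree (xx F k) Y (e i) = 0 → ∀ i, p i = 0

/-! ### Points -/

/-- PTE: there are points over every `x1`. -/
def S_PTE : Prop := ∀ x1 : k, ∃ Y1 : k[X], IsPt M Y x1 Y1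

/-- PTQ: the equation of the points. -/
def S_PTQ : Prop := ∀ (x1 : k) (Y1 : k[X]), IsPt M Y x1 Y1 →
  M.map (algebraMap F k) ∣ tw F Y1 - (X - C x1) * Y1

/-- PTU: points outside of `M = 0` are units. -/
def S_PTU : Prop := ∀ (x1 : k) (Y1 : k[X]), IsPt M Y x1 Y1 → aeval x1 M ≠ 0 → IsSol M x1 Y1

/-- PTG: `H` acts on points. -/
def S_PTG : Prop := ∀ (x1 : k) (Y1 : k[X]), IsPt M Y x1 Y1 → ∀ g ∈ HH M Y,
  IsPt M Y x1 (act M g Y1)

/-- PTH: the points over `x1` form one orbit. -/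
def S_PTH : Prop := ∀ (x1 : k) (Y1 Y2 : k[X]), aeval x1 M ≠ 0 → IsPt M Y x1 Y1 →
  IsPt M Y x1 Y2 → ∃ g ∈ HH M Y, Y2 = act M g Y1

/-- ZER: the zero lemma. -/
def S_ZER : Prop := ∀ (d : ℕ) (P : PP k M.natDegree), P ∈ WW F k M.natDegree d →
  ev M.natDegree (xx F k) Y P ≠ 0 → ∀ S : Finset k,
  (∀ x1 ∈ S, aeval x1 M ≠ 0 ∧ ∀ Y1, IsPt M Y x1 Y1 → ev M.natDegree x1 Y1 P = 0) →
  (Fintype.card F - 1) * S.card ≤ d

/-! ### Dimensions -/

/-- ORD: orders of the functions of weight `<= d`. -/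
def S_ORD : Prop := ∀ (d : ℕ) (f : EE k), f ∈ RR F M.natDegree Y d → f ≠ 0 →
  -(d : ℤ) ≤ od f ∧ od f ≤ ((HH M Y).card * d : ℕ)

/-- DUP: upper bound for the dimension. -/
def S_DUP : Prop := ∀ d : ℕ, Module.Finite k (RR F M.natDegree Y d) ∧
  (Fintype.card F - 1) * Module.finrank k (RR F M.natDegree Y d) ≤
    (HH M Y).card * (d + (Fintype.card F - 1))

/-- DLO: lower bound for the dimension. -/
def S_DLO : Prop := ∃ D₀ : ℕ, ∀ d : ℕ, (HH M Y).card * d ≤
  (Fintype.card F - 1) * Module.finrank k (RR F M.natDegree Y d) + (HH M Y).card * D₀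

/-! ### Stepanov's method -/

/-- STV: the values at a point with Frobenius eigenvalue `c`. -/
def S_STV : Prop := ∀ (j : ℕ), 1 ≤ j → ∀ (c : F[X]) (x1 : k) (Y1 : k[X]), x1 ∈ Fx F k j →
  aeval x1 M ≠ 0 → IsPt M Y x1 Y1 → M ∣ nm F x1 j - c → ∀ P : PP k M.natDegree,
    (ev M.natDegree x1 Y1 P) ^ (Fintype.card F ^ j) =
      ev M.natDegree x1 Y1 (sub k M c (MvPolynomial.map (frr F k j) P))

/-- STK: the auxiliary function. -/
def S_STK : Prop := ∀ (s m' n' : ℕ) (c : F[X]), 1 ≤ s →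
  Module.finrank k (RR F M.natDegree Y (Fintype.card F ^ s * m' + n')) <
    Module.finrank k (RR F M.natDegree Y m') * Module.finrank k (RR F M.natDegree Y n') →
  ((HH M Y).card + 1) * m' < Fintype.card F ^ s →
  ∃ (n : ℕ) (u v : Fin n → PP k M.natDegree), (∀ i, u i ∈ WW F k M.natDegree m') ∧
    (∀ i, v i ∈ WW F k M.natDegree n') ∧
    ev M.natDegree (xx F k) Y (∑ i, u i ^ (Fintype.card F ^ s) *
      sub k M c (MvPolynomial.map (frr F k (2 * s)) (v i))) = 0 ∧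
    ev M.natDegree (xx F k) Y (∑ i, u i * v i ^ (Fintype.card F ^ s)) ≠ 0

/-- STB: the bound for the number of points. -/
def S_STB : Prop := ∀ (s m' n' : ℕ) (u : AdjoinRoot M), IsUnit u → 1 ≤ s →
  Module.finrank k (RR F M.natDegree Y (Fintype.card F ^ s * m' + n')) <
    Module.finrank k (RR F M.natDegree Y m') * Module.finrank k (RR F M.natDegree Y n') →
  ((HH M Y).card + 1) * m' < Fintype.card F ^ s →
  (Fintype.card F - 1) * NN M k (2 * s) u ≤ m' + Fintype.card F ^ s * n'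

/-- STP: Stepanov's bound. -/
def S_STP : Prop := ∃ A : ℕ, ∀ s : ℕ, 1 ≤ s → ∀ u : AdjoinRoot M, IsUnit u →
  (HH M Y).card * NN M k (2 * s) u ≤ Fintype.card F ^ (2 * s) + A * Fintype.card F ^ s

/-- FOD: the relations are defined over a finite field. -/
def S_FOD : Prop := ∃ r : ℕ, 1 ≤ r ∧ ∀ j : ℕ, ∀ P : PP k M.natDegree,
  ev M.natDegree (xx F k) Y P = 0 → ∃ P' : PP k M.natDegree,
    ev M.natDegree (xx F k) Y P' = 0 ∧ MvPolynomial.map (frr F k (r * j)) P' = P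

/-- NRH: norms are in `H`. -/
def S_NRH : Prop := ∃ r : ℕ, 1 ≤ r ∧ ∀ j : ℕ, 1 ≤ j → ∀ x1 ∈ Fx F k (r * j),
  aeval x1 M ≠ 0 → ∃ g ∈ HH M Y, M ∣ nm F x1 (r * j) - g

/-- IRR: `H` is the whole group. -/
def S_IRR : Prop := ∀ c : F[X], IsCoprime c M → ∃ g ∈ HH M Y, M ∣ c - g

end Geom

/-- CN1: the number of points, for one `M`. -/
def S_CN1 {F : Type} (k : Type) [Field F] [Fintype F] [Field k] [Algebra F k] (M : F[X]) : Prop :=
  ∃ A : ℝ, ∀ s : ℕ, 1 ≤ s → ∀ u : AdjoinRoot M, IsUnit u →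
    |(Nat.card (AdjoinRoot M)ˣ : ℝ) * NN M k (2 * s) u - (Fintype.card F : ℝ) ^ (2 * s)| ≤
      A * (Fintype.card F : ℝ) ^ s

/-- CNT: the number of points. -/
def S_CNT (F k : Type) [Field F] [Fintype F] [Field k] [Algebra F k] : Prop :=
  ∀ (M : F[X]), M.Monic → 1 ≤ M.natDegree → S_CN1 k M

end Pool.RN
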