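import Pool.Agent.H48.RN.Stmts2
import Pool.Agent.H48.RN.Curve

/-!
# Project RN: statements of the modules on curves
-/

set_option autoImplicit false
set_option linter.unusedSectionVars false

namespace Pool.RN

open Polynomial

/-- LC0: a split node has discriminant zero. -/
def S_LC0 : Prop := ∀ (R : Type) [CommRing R] (W : WeierstrassCurve R), SplitNode W → W.Δ = 0

/-- LC2: split nodes in characteristic 2. -/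
def S_LC2 : Prop := ∀ (K : Type) [Field K], (2 : K) = 0 → ∀ W : WeierstrassCurve K,
  W.Δ = 0 → W.a₁ ≠ 0 → (SplitNode W ↔ ∃ z : K, (z ^ 2 + z) * W.a₁ ^ 3 = W.a₁ * W.a₂ + W.a₃)

/-- LC3: split nodes in characteristic 3. -/
def S_LC3 : Prop := ∀ (K : Type) [Field K], (3 : K) = 0 → ∀ W : WeierstrassCurve K,
  W.Δ = 0 → W.b₂ ≠ 0 → (SplitNode W ↔ IsSquare W.b₂)

section

variable (F : Type) [Field F] [Fintype F]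

/-- SY3: the Legendre symbol `(D / P)` is a real character of `P` modulo `M`, up to a sign
depending on the degree. -/
def S_SY3 : Prop := (2 : F) ≠ 0 → ∀ D M : F[X], D ≠ 0 → M.Monic → 1 ≤ M.natDegree → D ∣ M →
  ∃ (χ₀ : MulChar (AdjoinRoot M) ℂ) (l : ℂ), IsReal χ₀ ∧ (l = 1 ∨ l = -1) ∧
    ∀ P : F[X], P.Monic → Irreducible P → ¬ P ∣ M →
      (IsSquare (AdjoinRoot.mk P D) → cc χ₀ l P = 1) ∧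
      (¬ IsSquare (AdjoinRoot.mk P D) → cc χ₀ l P = -1)

/-- SY2: the Artin-Schreier symbol `[N / D, P)`. -/
def S_SY2 : Prop := (2 : F) = 0 → ∀ D N M : F[X], D ≠ 0 → M.Monic → 1 ≤ M.natDegree → D ^ 2 ∣ M →
  N.natDegree ≤ D.natDegree →
  ∃ (χ₀ : MulChar (AdjoinRoot M) ℂ) (l : ℂ), IsReal χ₀ ∧ (l = 1 ∨ l = -1) ∧
    ∀ P : F[X], P.Monic → Irreducible P → ¬ P ∣ M →
      ((∃ z, (z ^ 2 + z) * AdjoinRoot.mk P D = AdjoinRoot.mk P N) → cc χ₀ l P = 1) ∧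
      (¬ (∃ z, (z ^ 2 + z) * AdjoinRoot.mk P D = AdjoinRoot.mk P N) → cc χ₀ l P = -1)

/-- CL2: the discriminant in characteristic 2. -/
def S_CL2 : Prop := (2 : F) = 0 → ∀ (n : ℕ) (a₁ a₂ a₃ : F[X]), 1 ≤ n → a₁.natDegree = n →
  a₂.natDegree ≤ 2 * n → a₃.natDegree ≤ 3 * n →
  ∃ cl : F[X] → F[X], (∀ a₄ ∈ Pol F (4 * n), (cl a₄).natDegree ≤ 12 * n) ∧
    (∀ a₄ a₆, (WeierstrassCurve.mk a₁ a₂ a₃ a₄ a₆).Δ = a₁ ^ 6 * a₆ + cl a₄) ∧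
    (∀ a₄, IsCoprime (cl a₄) a₁ ↔ IsCoprime a₁ a₃) ∧
    (∀ a₄ a₄', a₁ ∣ a₄ - a₄' → a₁ ^ 6 ∣ cl a₄ - cl a₄') ∧
    (IsCoprime a₁ a₃ → ∀ a₄ a₄', a₁ ^ 6 ∣ cl a₄ - cl a₄' → a₁ ∣ a₄ - a₄') ∧
    (∀ a₄ ∈ Pol F (4 * n), ∀ a₆ ∈ Pol F (6 * n),
      (WeierstrassCurve.mk a₁ a₂ a₃ a₄ a₆ ∈ Fam F n ↔ IsCoprime a₁ a₃))

/-- CL3: the discriminant in characteristic 3. -/
def S_CL3 : Prop := (3 : F) = 0 → ∀ (n : ℕ) (a₁ a₂ a₃ : F[X]), 1 ≤ n →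
  a₁.natDegree ≤ n → a₂.natDegree ≤ 2 * n → a₃.natDegree ≤ 3 * n →
  (a₁ ^ 2 + a₂).natDegree = 2 * n →
  ∃ cl : F[X] → F[X], (∀ a₄ ∈ Pol F (4 * n), (cl a₄).natDegree ≤ 12 * n) ∧
    (∀ a₄ a₆, (WeierstrassCurve.mk a₁ a₂ a₃ a₄ a₆).Δ = -(a₁ ^ 2 + a₂) ^ 3 * a₆ + cl a₄) ∧
    (∀ a₄, IsCoprime (cl a₄) (a₁ ^ 2 + a₂) ↔ IsCoprime (a₁ * a₃ - a₄) (a₁ ^ 2 + a₂)) ∧
    (∀ a₄ a₄', a₁ ^ 2 + a₂ ∣ a₄ - a₄' → (a₁ ^ 2 + a₂) ^ 3 ∣ cl a₄ - cl a₄') ∧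
    (∀ a₄ a₄', (a₁ ^ 2 + a₂) ^ 3 ∣ cl a₄ - cl a₄' → a₁ ^ 2 + a₂ ∣ a₄ - a₄') ∧
    (∀ a₄ ∈ Pol F (4 * n), ∀ a₆ ∈ Pol F (6 * n),
      (WeierstrassCurve.mk a₁ a₂ a₃ a₄ a₆ ∈ Fam F n ↔
        IsCoprime (a₁ * a₃ - a₄) (a₁ ^ 2 + a₂)))

/-- RN2: the root number in characteristic 2. -/
def S_RN2 : Prop := (2 : F) = 0 → ∀ (n : ℕ) (a₁ a₂ a₃ M : F[X]), 1 ≤ n → a₁.natDegree = n →
  M.Monic → a₁ ^ 6 ∣ M → M ∣ a₁ ^ 6 →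
  ∃ (χ₀ : MulChar (AdjoinRoot M) ℂ) (l w : ℂ), IsReal χ₀ ∧ (l = 1 ∨ l = -1) ∧ (w = 1 ∨ w = -1) ∧
    ∀ a₄ a₆ : F[X], WeierstrassCurve.mk a₁ a₂ a₃ a₄ a₆ ∈ Fam F n →
      ((rootNumber n (WeierstrassCurve.mk a₁ a₂ a₃ a₄ a₆) : ℤ) : ℂ) =
        (if (WeierstrassCurve.mk a₁ a₂ a₃ a₄ a₆).Δ.natDegree = 12 * n then 1 else w) *
          wf (cc χ₀ l) (WeierstrassCurve.mk a₁ a₂ a₃ a₄ a₆).Δ

/-- RN3: the root number in characteristic 3. -/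
def S_RN3 : Prop := (3 : F) = 0 → ∀ (n : ℕ) (a₁ a₂ a₃ M : F[X]), 1 ≤ n →
  (a₁ ^ 2 + a₂).natDegree = 2 * n →
  M.Monic → (a₁ ^ 2 + a₂) ^ 3 ∣ M → M ∣ (a₁ ^ 2 + a₂) ^ 3 →
  ∃ (χ₀ : MulChar (AdjoinRoot M) ℂ) (l w : ℂ), IsReal χ₀ ∧ (l = 1 ∨ l = -1) ∧ (w = 1 ∨ w = -1) ∧
    ∀ a₄ a₆ : F[X], WeierstrassCurve.mk a₁ a₂ a₃ a₄ a₆ ∈ Fam F n →
      ((rootNumber n (WeierstrassCurve.mk a₁ a₂ a₃ a₄ a₆) : ℤ) : ℂ) =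
        (if (WeierstrassCurve.mk a₁ a₂ a₃ a₄ a₆).Δ.natDegree = 12 * n then 1 else w) *
          wf (cc χ₀ l) (WeierstrassCurve.mk a₁ a₂ a₃ a₄ a₆).Δ

/-- FSM: the sum over `a4` and `a6`. -/
def S_FSM : Prop := ∀ ε : ℝ, 0 < ε → ∃ C : ℝ, 0 < C ∧ ∀ (n : ℕ) (e b M : F[X]) (cl : F[X] → F[X])
  (T : Finset F[X]) (χ₀ : MulChar (AdjoinRoot M) ℂ) (l w : ℂ), 1 ≤ n → M.Monic →
  M.natDegree = 6 * n → b ∣ M → M ∣ b → e ≠ 0 → e.natDegree ≤ 4 * n → T ⊆ Pol F (4 * n) →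
  (∀ a ∈ T, (cl a).natDegree ≤ 12 * n ∧ IsCoprime (cl a) M) →
  (∀ a a', e ∣ a - a' → M ∣ cl a - cl a') →
  (∀ a a', M ∣ cl a - cl a' → e ∣ a - a') →
  IsReal χ₀ → (l = 1 ∨ l = -1) → (w = 1 ∨ w = -1) →
  ∑ a ∈ T, ‖∑ a₆ ∈ Pol F (6 * n), (if (b * a₆ + cl a).natDegree = 12 * n then 1 else w) *
      wf (cc χ₀ l) (b * a₆ + cl a)‖ ≤
    C * (Fintype.card F : ℝ) ^ ((10 + ε) * n - e.natDegree / 2)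

/-- PHI: the number of polynomials coprime to `D`. -/
def S_PHI : Prop := ∀ ε : ℝ, 0 < ε → ∃ c : ℝ, 0 < c ∧ ∀ (D : F[X]) (N : ℕ), D ≠ 0 →
  D.natDegree ≤ N → c * (Fintype.card F : ℝ) ^ (N - ε * D.natDegree) ≤
    ({a ∈ (Pol F N : Set F[X]) | IsCoprime a D}.ncard : ℝ)

variable {F} in
open Classical in
/-- The equations in `Fam F n` with given `a1, a2, a3`. -/
noncomputable def Fib (n : ℕ) (a₁ a₂ a₃ : F[X]) : Finset (F[X] × F[X]) :=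
  ((Pol F (4 * n)) ×ˢ (Pol F (6 * n))).filter
    (fun p => WeierstrassCurve.mk a₁ a₂ a₃ p.1 p.2 ∈ Fam F n)

/-- FBT: the fibre sums with saving `q^(-(theta - eps) n)`. -/
def S_FBT (θ : ℝ) : Prop := ∀ ε : ℝ, 0 < ε → ∃ C : ℝ, 0 < C ∧ ∀ (n : ℕ) (a₁ a₂ a₃ : F[X]), 1 ≤ n →
  |∑ p ∈ Fib n a₁ a₂ a₃, (rootNumber n (WeierstrassCurve.mk a₁ a₂ a₃ p.1 p.2) : ℝ)| ≤
    C * (Fintype.card F : ℝ) ^ (-(θ - ε) * n) * (Fib n a₁ a₂ a₃).card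

/-- FB2: fibre sums in characteristic 2. -/
def S_FB2 : Prop := (2 : F) = 0 → S_FBT F (1 / 2)

/-- FB3: fibre sums in characteristic 3. -/
def S_FB3 : Prop := (3 : F) = 0 → S_FBT F 1

/-- AVG: the average over the whole family. -/
def S_AVG : Prop := ∀ θ : ℝ, S_FBT F θ → ∀ ε : ℝ, 0 < ε → ∃ C : ℝ, 0 < C ∧ ∀ n : ℕ, 1 ≤ n →
  (Fam F n).Finite ∧ 1 ≤ (Fam F n).ncard ∧
  |(({W ∈ Fam F n | rootNumber n W = 1}.ncard : ℝ)) - ({W ∈ Fam F n | rootNumber n W = -1}.ncard : ℝ)| ≤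
    C * (Fintype.card F : ℝ) ^ (-(θ - ε) * n) * (Fam F n).ncard

end

end Pool.RN
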