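import Pool.Agent.H48.RN.Stmts2

/-!
# Project RN, module ZER: the zero lemma
-/

set_option autoImplicit false
set_option linter.unusedSectionVars false

namespace Pool.RN

open Polynomial

section Alg

variable {A E : Type} [CommRing A] [CommRing E] {n : ℕ}

/-- The Vandermonde determinant. -/
noncomputable def ZER_d (l : Fin n → A) : A := (Matrix.vandermonde l).det

/-- Cramer's numerators. -/
noncomputable def ZER_a (l f : Fin n → A) (j : Fin n) : A :=
  ((Matrix.vandermonde l).updateCol j f).det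

theorem ZER_cramer (l f : Fin n → A) (i : Fin n) :
    ZER_d l * f i = ∑ j : Fin n, l i ^ (j : ℕ) * ZER_a l f j := by
  have h := Matrix.mulVec_cramer (Matrix.vandermonde l) f
  have h1 := congrFun h i
  rw [Pi.smul_apply, smul_eq_mul] at h1
  unfold ZER_d ZER_a
  rw [← h1, Matrix.mulVec, dotProduct]
  refine Finset.sum_congr rfl fun j _ => ?_
  rw [Matrix.vandermonde_apply, Matrix.cramer_apply]

theorem ZER_map_d (φ : A →+* E) (l : Fin n → A) : φ (ZER_d l) = ZER_d (fun i => φ (l i)) := by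
  unfold ZER_d
  rw [RingHom.map_det]
  congr 1
  ext i j
  simp [Matrix.vandermonde_apply]

theorem ZER_map_a (φ : A →+* E) (l f : Fin n → A) (j : Fin n) :
    φ (ZER_a l f j) = ZER_a (fun i => φ (l i)) (fun i => φ (f i)) j := by
  unfold ZER_a
  rw [RingHom.map_det]
  congr 1
  ext i j'
  by_cases h : j' = j
  · subst h
    simp
  · simp [h, Matrix.vandermonde_apply]

theorem ZER_perm_d (l : Fin n → A) (π : Equiv.Perm (Fin n)) :
    ZER_d (fun i => l (π i)) = (Equiv.Perm.sign π : ℤ) * ZER_d l := by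
  unfold ZER_d
  exact (Matrix.det_permute π (Matrix.vandermonde l))

theorem ZER_perm_a (l f : Fin n → A) (π : Equiv.Perm (Fin n)) (j : Fin n) :
    ZER_a (fun i => l (π i)) (fun i => f (π i)) j = (Equiv.Perm.sign π : ℤ) * ZER_a l f j := by
  unfold ZER_a
  rw [← Matrix.det_permute]
  congr 1

theorem ZER_sign (π : Equiv.Perm (Fin n)) (a b : A) :
    ((Equiv.Perm.sign π : ℤ) : A) * a * (((Equiv.Perm.sign π : ℤ) : A) * b) = a * b := by
  rcases Int.units_eq_one_or (Equiv.Perm.sign π) with h | h <;> rw [h] <;> simp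

theorem ZER_inv (φ ψ : A →+* E) (l f : Fin n → A) (π : Equiv.Perm (Fin n))
    (hl : ∀ i, ψ (l i) = φ (l (π i))) (hf : ∀ i, ψ (f i) = φ (f (π i))) :
    ψ (ZER_d l * ZER_d l) = φ (ZER_d l * ZER_d l) ∧
      ∀ j, ψ (ZER_d l * ZER_a l f j) = φ (ZER_d l * ZER_a l f j) := by
  have h1 : ψ (ZER_d l) = (Equiv.Perm.sign π : ℤ) * φ (ZER_d l) := by
    rw [ZER_map_d, ZER_map_d, ← ZER_perm_d]
    congr 1
    funext i
    exact hl i
  have h2 : ∀ j, ψ (ZER_a l f j) = (Equiv.Perm.sign π : ℤ) * φ (ZER_a l f j) := by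
    intro j
    rw [ZER_map_a, ZER_map_a, ← ZER_perm_a]
    congr 1
    · funext i
      exact hl i
    · funext i
      exact hf i
  refine ⟨?_, fun j => ?_⟩
  · rw [map_mul, map_mul, h1, ZER_sign]
  · rw [map_mul, map_mul, h1, h2, ZER_sign]

theorem ZER_zero (φ : A →+* E) (l f : Fin n → A) (hf : ∀ i, φ (f i) = 0) (j : Fin n) :
    φ (ZER_a l f j) = 0 := by
  rw [ZER_map_a]
  unfold ZER_a
  apply Matrix.det_eq_zero_of_column_eq_zero j
  intro i
  simp [hf]

theorem ZER_ne [IsDomain E] (φ : A →+* E) (l : Fin n → A)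
    (hl : ∀ i j, φ (l i) = φ (l j) → i = j) : φ (ZER_d l) ≠ 0 := by
  rw [ZER_map_d]
  unfold ZER_d
  exact Matrix.det_vandermonde_ne_zero_iff.2 fun i j h => hl i j h

end Alg

section Geo

variable {F k : Type} [Field F] [Fintype F] [Field k] [Algebra F k] (M : F[X]) (Y : (EE k)[X])

/-- The action permutes the elements of `H`. -/
theorem ZER_perm (hM : M.Monic) (hm : 1 ≤ M.natDegree) (hY : Good M Y) (hACT : S_ACT F)
    (hEVA : S_EVA F k) (hGRP : S_GRP M Y) (e : Fin (HH M Y).card ≃ {g // g ∈ HH M Y})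
    (g0 : F[X]) (hg0 : g0 ∈ HH M Y) :
    ∃ π : Equiv.Perm (Fin (HH M Y).card), ∀ i, ∀ Q : PP k M.natDegree,
      ev M.natDegree (xx F k) (act M g0 Y) (sub k M (e i).1 Q) =
        ev M.natDegree (xx F k) Y (sub k M (e (π i)).1 Q) := by
  classical
  obtain ⟨hG1, hG2, hG3, hG4, hG5⟩ := hGRP
  obtain ⟨hA1, hA2, hA3, hA4⟩ := hACT M hM hm (EE k) (xx F k) Y hY.sol
  have hdeg : ∀ g : {g // g ∈ HH M Y}, g.1.degree < M.degree := fun g => (mem_HH.1 g.2).1
  have hcop0 : IsCoprime g0 M := (mem_HH.1 hg0).2.1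
  let τ : {g // g ∈ HH M Y} → {g // g ∈ HH M Y} := fun g => ⟨(g.1 * g0) %ₘ M, hG3 g.1 g.2 g0 hg0⟩
  have hτinj : Function.Injective τ := by
    intro g g' h
    have h1 : (g.1 * g0) %ₘ M = (g'.1 * g0) %ₘ M := congrArg Subtype.val h
    have h2 : M ∣ g.1 * g0 - g'.1 * g0 := by
      rw [← (modByMonic_eq_zero_iff_dvd hM), sub_modByMonic, h1, sub_self]
    rw [← sub_mul] at h2
    have h3 : M ∣ g.1 - g'.1 := hcop0.symm.dvd_of_dvd_mul_right h2
    have h4 : g.1 - g'.1 = 0 := by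
      by_contra hne
      have h5 := degree_le_of_dvd h3 hne
      exact absurd (h5.trans_lt ((degree_sub_le _ _).trans_lt (max_lt (hdeg g) (hdeg g')))) (lt_irrefl _)
    exact Subtype.ext (sub_eq_zero.1 h4)
  have hτ : Function.Bijective τ := Finite.injective_iff_bijective.1 hτinj
  refine ⟨(e.trans (Equiv.ofBijective τ hτ)).trans e.symm, fun i Q => ?_⟩
  have hY0 : (act M g0 Y).degree < M.degree :=
    (hEVA M hM hm (EE k) (xx F k) Y g0 hY.sol.deg).1
  rw [← (hEVA M hM hm (EE k) (xx F k) (act M g0 Y) (e i).1 hY0).2.2 Q,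
    ← (hEVA M hM hm (EE k) (xx F k) Y _ hY.sol.deg).2.2 Q, hA2]
  congr 2
  rw [hA3]
  simp only [Equiv.trans_apply, Equiv.apply_symm_apply, Equiv.ofBijective_apply, τ]
  rw [← (modByMonic_eq_zero_iff_dvd hM), sub_modByMonic,
    (modByMonic_eq_self_iff hM).2 (degree_modByMonic_lt _ hM), sub_self]

/-- The polynomial `a` in the variable `x`. -/
noncomputable def ZER_x (m : ℕ) (a : k[X]) : PP k m := aeval (MvPolynomial.X none) a

theorem ZER_ev_x {L : Type} [Field L] [Algebra k L] (m : ℕ) (x : L) (Z : L[X]) (a : k[X]) :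
    ev m x Z (ZER_x m a) = aeval x a := by
  unfold ZER_x
  rw [← aeval_algHom_apply]
  congr 1
  simp [ev]

theorem ZER_sub_x (g : F[X]) (a : k[X]) : sub k M g (ZER_x M.natDegree a) = ZER_x M.natDegree a := by
  unfold ZER_x
  rw [← aeval_algHom_apply]
  congr 1
  simp [sub]

/-- Relations of the form `Q = a(x)` specialise. -/
theorem ZER_spec (x1 : k) (Y1 : k[X]) (hp : IsPt M Y x1 Y1) (Q : PP k M.natDegree) (a : k[X])
    (h : ev M.natDegree (xx F k) Y Q = aeval (xx F k) a) :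
    ev M.natDegree x1 Y1 Q = a.eval x1 := by
  have h1 := hp.2 (Q - ZER_x M.natDegree a) (by rw [map_sub, h, ZER_ev_x, sub_self])
  rw [map_sub, ZER_ev_x, sub_eq_zero] at h1
  rw [h1, coe_aeval_eq_eval]

/-- The product over the group. -/
theorem ZER_norm (hM : M.Monic) (hm : 1 ≤ M.natDegree) (hY : Good M Y) (hACT : S_ACT F)
    (hEVA : S_EVA F k) (hGRP : S_GRP M Y) (hINV : S_INV M Y)
    (e : Fin (HH M Y).card ≃ {g // g ∈ HH M Y}) (Q : PP k M.natDegree) :
    ∃ b : k[X], ev M.natDegree (xx F k) Y (∏ i, sub k M (e i).1 Q) = aeval (xx F k) b := by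
  apply hINV
  intro g0 hg0
  obtain ⟨π, hπ⟩ := ZER_perm M Y hM hm hY hACT hEVA hGRP e g0 hg0
  rw [map_prod, map_prod]
  simp_rw [hπ]
  exact Equiv.prod_comp π (fun i => ev M.natDegree (xx F k) Y (sub k M (e i).1 Q))

/-- Evaluation at `t` as a linear form. -/
noncomputable def ZER_l (m : ℕ) (t : k) : PP k m :=
  ∑ i : Fin m, MvPolynomial.C (t ^ (i : ℕ)) * MvPolynomial.X (some i)

theorem ZER_ev_l (m : ℕ) (hm : 1 ≤ m) (t x1 : k) (Z : k[X]) (hZ : Z.degree < m) :
    ev m x1 Z (ZER_l m t) = Z.eval t := by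
  unfold ZER_l ev
  rw [map_sum]
  simp only [map_mul, MvPolynomial.aeval_X, Option.elim_some]
  rw [Polynomial.eval_eq_sum_range' (n := m)]
  · rw [Finset.sum_range]
    refine Finset.sum_congr rfl fun i _ => ?_
    rw [MvPolynomial.algHom_C]
    simp [mul_comm]
  · by_cases h0 : Z = 0
    · subst h0
      rw [natDegree_zero]
      exact hm
    · exact (natDegree_lt_iff_degree_lt h0).2 hZ

/-- Distinct elements of `H` give distinct points. -/
theorem ZER_inj (hM : M.Monic) (hm : 1 ≤ M.natDegree) (hACT : S_ACT F) (x1 : k) (Y1 : k[X])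
    (hsol : IsSol M x1 Y1) (g g' : {g // g ∈ HH M Y}) (hgg : act M g.1 Y1 = act M g'.1 Y1) :
    g = g' := by
  obtain ⟨hA1, hA2, hA3, hA4⟩ := hACT M hM hm k x1 Y1 hsol
  have hdeg : ∀ g : {g // g ∈ HH M Y}, g.1.degree < M.degree := fun g => (mem_HH.1 g.2).1
  have h3 : M ∣ g.1 - g'.1 := (hA3 g.1 g'.1).1 hgg
  have h4 : g.1 - g'.1 = 0 := by
    by_contra hne
    have h5 := degree_le_of_dvd h3 hne
    exact absurd (h5.trans_lt ((degree_sub_le _ _).trans_lt (max_lt (hdeg g) (hdeg g'))))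
      (lt_irrefl _)
  exact Subtype.ext (sub_eq_zero.1 h4)

/-- A separating evaluation. -/
theorem ZER_sep [IsAlgClosed k] (hM : M.Monic) (hm : 1 ≤ M.natDegree) (hACT : S_ACT F) (x1 : k)
    (Y1 : k[X]) (hsol : IsSol M x1 Y1) : ∃ t : k, ∀ g g' : {g // g ∈ HH M Y}, g ≠ g' →
      (act M g.1 Y1).eval t ≠ (act M g'.1 Y1).eval t := by
  classical
  have hne : (∏ q ∈ (Finset.univ : Finset ({g // g ∈ HH M Y} × {g // g ∈ HH M Y})).filter
      (fun q => q.1 ≠ q.2), (act M q.1.1 Y1 - act M q.2.1 Y1)) ≠ 0 := by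
    rw [Finset.prod_ne_zero_iff]
    intro q hq h0
    exact (Finset.mem_filter.1 hq).2
      (ZER_inj M Y hM hm hACT x1 Y1 hsol _ _ (sub_eq_zero.1 h0))
  have : Infinite k := IsAlgClosed.instInfinite
  obtain ⟨t, ht⟩ : ∃ t : k, (∏ q ∈ (Finset.univ : Finset ({g // g ∈ HH M Y} ×
      {g // g ∈ HH M Y})).filter
      (fun q => q.1 ≠ q.2), (act M q.1.1 Y1 - act M q.2.1 Y1)).eval t ≠ 0 := by
    by_contra hcon
    push Not at hcon
    exact hne (Polynomial.funext fun r => by rw [hcon r, eval_zero])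
  refine ⟨t, fun g g' hgg h0 => ?_⟩
  rw [eval_prod, Finset.prod_ne_zero_iff] at ht
  have := ht (g, g') (by simp [hgg])
  rw [eval_sub, h0, sub_self] at this
  exact this rfl

/-- Local statement at one `x1`. -/
theorem ZER_loc [IsAlgClosed k] (hM : M.Monic) (hm : 1 ≤ M.natDegree) (hY : Good M Y)
    (hPTE : S_PTE M Y) (hPTU : S_PTU M Y) (hPTG : S_PTG M Y) (hACT : S_ACT F)
    (hEVA : S_EVA F k) (hGRP : S_GRP M Y) (hINV : S_INV M Y) (hTRX : S_TRX F k)
    (e : Fin (HH M Y).card ≃ {g // g ∈ HH M Y}) (P : PP k M.natDegree) (x1 : k)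
    (hx1 : aeval x1 M ≠ 0) (hP : ∀ Y1, IsPt M Y x1 Y1 → ev M.natDegree x1 Y1 P = 0)
    (p : k[X]) (hp : ev M.natDegree (xx F k) Y (∏ i, sub k M (e i).1 P) = aeval (xx F k) p) :
    (X - C x1) ^ (HH M Y).card ∣ p := by
  classical
  have hMdeg : M.degree = M.natDegree := degree_eq_natDegree hM.ne_zero
  obtain ⟨Y1, hY1⟩ := hPTE x1
  have hsol := hPTU x1 Y1 hY1 hx1
  have hpt : ∀ g : {g // g ∈ HH M Y}, IsPt M Y x1 (act M g.1 Y1) := fun g => hPTG x1 Y1 hY1 g.1 g.2
  have hdegY : ∀ g : {g // g ∈ HH M Y}, (act M g.1 Y1).degree < M.natDegree :=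
    fun g => hMdeg ▸ (hpt g).1
  obtain ⟨t, ht⟩ := ZER_sep M Y hM hm hACT x1 Y1 hsol
  have hev1 : ∀ g : {g // g ∈ HH M Y}, ∀ Q, ev M.natDegree x1 Y1 (sub k M g.1 Q) =
      ev M.natDegree x1 (act M g.1 Y1) Q := by
    intro g Q
    exact ((hEVA M hM hm k x1 Y1 g.1 hY1.1).2.2 Q).symm
  obtain ⟨l, hl⟩ : ∃ l : Fin (HH M Y).card → PP k M.natDegree,
    ∀ i, l i = sub k M (e i).1 (ZER_l M.natDegree t) := ⟨_, fun i => rfl⟩
  obtain ⟨f, hf⟩ : ∃ f : Fin (HH M Y).card → PP k M.natDegree,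
    ∀ i, f i = sub k M (e i).1 P := ⟨_, fun i => rfl⟩
  have hl1 : ∀ i, ev M.natDegree x1 Y1 (l i) = (act M (e i).1 Y1).eval t := by
    intro i
    rw [hl, hev1, ZER_ev_l M.natDegree hm t x1 _ (hdegY _)]
  have hf1 : ∀ i, ev M.natDegree x1 Y1 (f i) = 0 := by
    intro i
    rw [hf, hev1]
    exact hP _ (hpt _)
  have hd1 : ev M.natDegree x1 Y1 (ZER_d l) ≠ 0 := by
    apply ZER_ne (ev M.natDegree x1 Y1).toRingHom l
    intro i j hij
    have hij' : ev M.natDegree x1 Y1 (l i) = ev M.natDegree x1 Y1 (l j) := hij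
    rw [hl1, hl1] at hij'
    by_contra hne
    exact ht (e i) (e j) (fun h => hne (e.injective h)) hij'
  -- invariance
  have hinv : ∀ g0 ∈ HH M Y, ev M.natDegree (xx F k) (act M g0 Y) (ZER_d l * ZER_d l) =
      ev M.natDegree (xx F k) Y (ZER_d l * ZER_d l) ∧
      ∀ j, ev M.natDegree (xx F k) (act M g0 Y)
        (ZER_d l * ZER_a l f j) = ev M.natDegree (xx F k) Y (ZER_d l * ZER_a l f j) := by
    intro g0 hg0
    obtain ⟨π, hπ⟩ := ZER_perm M Y hM hm hY hACT hEVA hGRP e g0 hg0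
    refine ZER_inv (ev M.natDegree (xx F k) Y).toRingHom
      (ev M.natDegree (xx F k) (act M g0 Y)).toRingHom l f π (fun i => ?_) (fun i => ?_)
    · rw [hl, hl]
      exact hπ i _
    · rw [hf, hf]
      exact hπ i _
  obtain ⟨D, hD⟩ := hINV (ZER_d l * ZER_d l) (fun g hg => (hinv g hg).1)
  choose a ha using fun j => hINV (ZER_d l * ZER_a l f j) (fun g hg => (hinv g hg).2 j)
  have hD1 : D.eval x1 ≠ 0 := by
    rw [← ZER_spec M Y x1 Y1 hY1 _ D hD, map_mul]
    exact mul_ne_zero hd1 hd1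
  have ha1 : ∀ j, X - C x1 ∣ a j := by
    intro j
    rw [dvd_iff_isRoot, IsRoot, ← ZER_spec M Y x1 Y1 hY1 _ (a j) (ha j), map_mul]
    exact mul_eq_zero_of_right _ (ZER_zero (ev M.natDegree x1 Y1).toRingHom l f hf1 j)
  choose b hb using ha1
  obtain ⟨B, hB⟩ : ∃ B : PP k M.natDegree, B = ∑ j : Fin (HH M Y).card,
    (ZER_l M.natDegree t) ^ (j : ℕ) * ZER_x M.natDegree (b j) := ⟨_, rfl⟩
  have hBi : ∀ i, sub k M (e i).1 B =
      ∑ j : Fin (HH M Y).card, l i ^ (j : ℕ) * ZER_x M.natDegree (b j) := by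
    intro i
    rw [hB, map_sum]
    refine Finset.sum_congr rfl fun j _ => ?_
    rw [map_mul, map_pow, ZER_sub_x, hl]
  have hkey : ∀ i, aeval (xx F k) D * ev M.natDegree (xx F k) Y (f i) =
      aeval (xx F k) (X - C x1) * ev M.natDegree (xx F k) Y (sub k M (e i).1 B) := by
    intro i
    have h1 : ZER_d l * ZER_d l * f i =
        ∑ j : Fin (HH M Y).card, l i ^ (j : ℕ) * (ZER_d l * ZER_a l f j) := by
      rw [mul_assoc, ZER_cramer, Finset.mul_sum]
      refine Finset.sum_congr rfl fun j _ => ?_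
      ring
    have h2 := congrArg (ev M.natDegree (xx F k) Y) h1
    rw [map_mul, map_sum, hD] at h2
    rw [h2, hBi, map_sum, Finset.mul_sum]
    refine Finset.sum_congr rfl fun j _ => ?_
    rw [map_mul, map_mul (ev M.natDegree (xx F k) Y) (l i ^ (j : ℕ)) (ZER_x M.natDegree (b j)),
      ha j, ZER_ev_x, hb j, map_mul]
    ring
  obtain ⟨c, hc⟩ := ZER_norm M Y hM hm hY hACT hEVA hGRP hINV e B
  have hprod : D ^ (HH M Y).card * p = (X - C x1) ^ (HH M Y).card * c := by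
    have h1 : ∏ i : Fin (HH M Y).card, (aeval (xx F k) D * ev M.natDegree (xx F k) Y (f i)) =
        ∏ i : Fin (HH M Y).card,
          (aeval (xx F k) (X - C x1) * ev M.natDegree (xx F k) Y (sub k M (e i).1 B)) :=
      Finset.prod_congr rfl fun i _ => hkey i
    rw [Finset.prod_mul_distrib, Finset.prod_mul_distrib, Finset.prod_const, Finset.prod_const,
      Finset.card_univ, Fintype.card_fin, ← map_prod, ← map_prod, hc] at h1
    simp_rw [hf] at h1
    rw [hp, ← map_pow, ← map_pow, ← map_mul, ← map_mul] at h1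
    by_contra hne
    have h4 := (hTRX (D ^ (HH M Y).card * p - (X - C x1) ^ (HH M Y).card * c)
      (sub_ne_zero.2 hne)).1
    rw [map_sub, h1, sub_self] at h4
    exact h4 rfl
  have hcop : IsCoprime ((X - C x1) ^ (HH M Y).card) (D ^ (HH M Y).card) := by
    apply IsCoprime.pow
    rw [(irreducible_X_sub_C x1).coprime_iff_not_dvd, dvd_iff_isRoot]
    exact hD1
  exact hcop.dvd_of_dvd_mul_left (Dvd.intro _ hprod.symm)

theorem ZER_prodW (hMLT : S_MLT F k) (hSWT : S_SWT F k) (d : ℕ) (P : PP k M.natDegree)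
    (hP : P ∈ WW F k M.natDegree d) (n : ℕ) (g : Fin n → F[X]) :
    ∏ i, sub k M (g i) P ∈ WW F k M.natDegree (n * d) := by
  induction n with
  | zero =>
    rw [Fin.prod_univ_zero]
    intro s hs
    rw [MvPolynomial.mem_support_iff, MvPolynomial.coeff_one] at hs
    have : s = 0 := by
      by_contra hne
      exact hs (if_neg fun h => hne h.symm)
    subst this
    simp [wt]
  | succ n ih =>
    rw [Fin.prod_univ_succ]
    have h1 := hMLT M.natDegree d (n * d) _ _ (hSWT M (g 0) d P hP) (ih (fun i => g i.succ))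
    have h2 : d + n * d = (n + 1) * d := by ring
    rw [h2] at h1
    exact h1

theorem s_ZER {F k : Type} [Field F] [Fintype F] [Field k] [Algebra F k] [IsAlgClosed k]
    [Algebra.IsAlgebraic F k] (M : F[X]) (Y : (EE k)[X]) (hM : M.Monic) (hm : 1 ≤ M.natDegree)
    (hY : Good M Y) (hPTE : S_PTE M Y) (hPTU : S_PTU M Y) (hPTG : S_PTG M Y) (hACT : S_ACT F)
    (hEVA : S_EVA F k) (hGRP : S_GRP M Y) (hINV : S_INV M Y) (hTRX : S_TRX F k)
    (hMLT : S_MLT F k) (hSWT : S_SWT F k) (hORD : S_ORD M Y) : S_ZER M Y := by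
  classical
  intro d P hPd hP0 S hS
  have e : Fin (HH M Y).card ≃ {g // g ∈ HH M Y} := (HH M Y).equivFin.symm
  obtain ⟨p, hp⟩ := ZER_norm M Y hM hm hY hACT hEVA hGRP hINV e P
  obtain ⟨hG1, hG2, hG3, hG4, hG5⟩ := hGRP
  obtain ⟨hA1, hA2, hA3, hA4⟩ := hACT M hM hm (EE k) (xx F k) Y hY.sol
  -- the product is not zero
  have hne : ev M.natDegree (xx F k) Y (∏ i, sub k M (e i).1 P) ≠ 0 := by
    rw [map_prod, Finset.prod_ne_zero_iff]
    intro i _ h0
    obtain ⟨g', hg', hgg'⟩ := hG4 (e i).1 (e i).2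
    have h1 := (mem_HH.1 hg').2.2 _ h0
    have hdeg' : (act M g' Y).degree < M.degree :=
      (hEVA M hM hm (EE k) (xx F k) Y g' hY.sol.deg).1
    rw [← (hEVA M hM hm (EE k) (xx F k) (act M g' Y) (e i).1 hdeg').2.2 P, hA2,
      (hA3 ((e i).1 * g') 1).2 hgg', hA4] at h1
    exact hP0 h1
  have hp0 : p ≠ 0 := by
    rintro rfl
    rw [hp, map_zero] at hne
    exact hne rfl
  -- the degree of p
  have hdeg : (Fintype.card F - 1) * p.natDegree ≤ (HH M Y).card * d := by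
    have h1 := hORD ((HH M Y).card * d) (ev M.natDegree (xx F k) Y (∏ i, sub k M (e i).1 P))
      ⟨_, ZER_prodW M hMLT hSWT d P hPd _ (fun i => (e i).1), rfl⟩ hne
    have h2 := (hTRX p hp0).2
    rw [hp, h2] at h1
    have h3 := h1.1
    exact_mod_cast (neg_le_neg_iff.1 h3)
  -- the zeros
  have hdvd : ∏ x1 ∈ S, (X - C x1) ^ (HH M Y).card ∣ p := by
    apply Finset.prod_dvd_of_coprime
    · intro x1 _ x2 _ h12
      exact (IsCoprime.pow (pairwise_coprime_X_sub_C Function.injective_id h12))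
    · intro x1 hx1
      exact ZER_loc M Y hM hm hY hPTE hPTU hPTG hACT hEVA ⟨hG1, hG2, hG3, hG4, hG5⟩ hINV hTRX e P x1
        (hS x1 hx1).1 (hS x1 hx1).2 p hp
  have hcard : S.card * (HH M Y).card ≤ p.natDegree := by
    refine le_trans (le_of_eq ?_) (natDegree_le_of_dvd hdvd hp0)
    rw [natDegree_prod_of_monic _ _ (fun x1 _ => (monic_X_sub_C x1).pow _)]
    simp
  have h4 : (HH M Y).card * ((Fintype.card F - 1) * S.card) ≤ (HH M Y).card * d := by
    calc (HH M Y).card * ((Fintype.card F - 1) * S.card) =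
        (Fintype.card F - 1) * (S.card * (HH M Y).card) := by ring
      _ ≤ (Fintype.card F - 1) * p.natDegree := Nat.mul_le_mul_left _ hcard
      _ ≤ _ := hdeg
  exact Nat.le_of_mul_le_mul_left h4 hG5

end Geo

end Pool.RN
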