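import Pool.Agent.H1.RN.CNV
import Pool.Agent.H1.RN.ORD
import Pool.Agent.H1.RN.PHI
import Pool.Agent.H10.RN.CN1
import Pool.Agent.H10.RN.PAR
import Pool.Agent.H14.RN.PTG
import Pool.Agent.H14.RN.TRX
import Pool.Agent.H15.RN.ACT
import Pool.Agent.H15.RN.EVA
import Pool.Agent.H15.RN.MLT
import Pool.Agent.H15.RN.SWT
import Pool.Agent.H18.RN.INV
import Pool.Agent.H18.RN.PTH
import Pool.Agent.H21.RN.DLO
import Pool.Agent.H21.RN.FOD
import Pool.Agent.H21.RN.NRH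
import Pool.Agent.H21.RN.PTE
import Pool.Agent.H21.RN.PTQ
import Pool.Agent.H21.RN.SEM
import Pool.Agent.H22.RN.FSM
import Pool.Agent.H22.RN.SQF
import Pool.Agent.H24.RN.Core
import Pool.Agent.H24.RN.RN2
import Pool.Agent.H24.RN.RN3
import Pool.Agent.H29.RN.FDL
import Pool.Agent.H29.RN.INT
import Pool.Agent.H29.RN.NMI
import Pool.Agent.H29.RN.PTS
import Pool.Agent.H29.RN.SEP
import Pool.Agent.H32.RN.ANB
import Pool.Agent.H32.RN.DUP
import Pool.Agent.H32.RN.FB2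
import Pool.Agent.H32.RN.FB3
import Pool.Agent.H32.RN.LGB
import Pool.Agent.H32.RN.LGM
import Pool.Agent.H32.RN.STV
import Pool.Agent.H33.RN.MOP
import Pool.Agent.H33.RN.STP
import Pool.Agent.H4.RN.AVG
import Pool.Agent.H4.RN.EXB
import Pool.Agent.H4.RN.MAJ
import Pool.Agent.H4.RN.PRC
import Pool.Agent.H4.RN.RHB
import Pool.Agent.H4.RN.TRV
import Pool.Agent.H45.RN.ANA
import Pool.Agent.H45.RN.BDC
import Pool.Agent.H45.RN.CRD
import Pool.Agent.H45.RN.DIS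
import Pool.Agent.H45.RN.MOB
import Pool.Agent.H45.RN.NOR
import Pool.Agent.H45.RN.SZR
import Pool.Agent.H48.RN.Base
import Pool.Agent.H48.RN.Curve
import Pool.Agent.H48.RN.Geo
import Pool.Agent.H48.RN.Stmts1
import Pool.Agent.H48.RN.Stmts2
import Pool.Agent.H48.RN.Stmts3
import Pool.Agent.H48.RN.ZER
import Pool.Agent.H57.RN.SY2
import Pool.Agent.H58.RN.CL2
import Pool.Agent.H58.RN.CL3
import Pool.Agent.H62.RN.WSM
import Pool.Agent.H70.RN.HGL
import Pool.Agent.H72.RN.LAU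
import Pool.Agent.H72.RN.STB
import Pool.Agent.H72.RN.STK
import Pool.Agent.H74.RN.BAS
import Pool.Agent.H74.RN.PTU
import Pool.Agent.H81.RN.SY3
import Pool.Agent.H82.RN.LC0
import Pool.Agent.H82.RN.LC2
import Pool.Agent.H82.RN.LC3
import Pool.Agent.H85.RN.GRP
import Pool.Agent.H85.RN.TOR
import Pool.Agent.H93.RN.SOL
import Pool.Agent.H87.RN.NWT
import Pool.Agent.H87.RN.PWS
import Pool.Agent.H97.RN.IRR

set_option autoImplicit false

namespace Pool.RN

open Polynomial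

theorem a_CN1 {F k : Type} [Field F] [Fintype F] [Field k] [Algebra F k] [IsAlgClosed k]
    [Algebra.IsAlgebraic F k] (M : F[X]) (Y : (EE k)[X]) (hM : M.Monic) (hm : 1 ≤ M.natDegree)
    (hY : Good M Y) : S_CN1 k M := by
  have CRD := s_CRD F
  have DIS := s_DIS F CRD
  have SZR := s_SZR F DIS
  have LGB := s_LGB F
  have PTS := s_PTS F k
  have NMI := s_NMI F k
  have EVA := s_EVA F k
  have MLT := s_MLT F k
  have SWT := s_SWT F k MLT
  have ACT := s_ACT F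
  have TOR := s_TOR F
  have TRX := s_TRX F k
  have LAU := s_LAU k
  have SEM := s_SEM k
  have INT := s_INT M Y hM hm hY
  have FDL := s_FDL M Y hM hm hY INT
  have NOR := s_NOR M Y hM hm hY TOR FDL
  have SEP := s_SEP M Y hM hm hY TRX INT
  have HGL := hgl M Y hM hm hY FDL NOR SEP TOR ACT EVA
  have GRP := s_GRP M Y hM hm hY ACT EVA HGL
  have INV := s_INV M Y hM hm hY HGL FDL NOR SEP INT EVA TRX
  have BAS := s_BAS M Y hM hm hY HGL FDL INT TRX
  have PTE := s_PTE M Y hM hm hY INT TRX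
  have PTQ := s_PTQ M Y hM hm hY EVA
  have PTU := s_PTU M Y hM hm hY PTQ
  have PTG := s_PTG M Y hM hm hY EVA
  have PTH := s_PTH M Y hM hm hY PTU PTG TOR ACT EVA GRP INV TRX
  have ORD := s_ORD M Y hM hm hY GRP INV TRX EVA MLT SWT
  have ZER := s_ZER M Y hM hm hY PTE PTU PTG ACT EVA GRP INV TRX MLT SWT ORD
  have DUP := s_DUP M Y hM hm hY ZER PTE PTU PTG PTH ACT
  have DLO := s_DLO M Y hM hm hY BAS TRX MLT DUP
  have STV := s_STV M Y hM hm hY PTQ EVA NMI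
  have STK := s_STK M Y hM hm hY LAU SEM ORD DUP MLT SWT EVA
  have STB := s_STB M Y hM hm hY STK STV ZER NMI MLT SWT
  have STP := s_STP M Y hM hm hY STB DUP DLO
  have FOD := s_FOD M Y hM hm hY
  have NRH := s_NRH M Y hM hm hY FOD STV PTE PTU PTH EVA ACT NMI
  have IRR := s_IRR M Y hM hm hY NRH GRP PTS NMI SZR LGB s_NWT s_PWS
  exact s_CN1 M Y hM hm hY STP IRR GRP NMI DIS

theorem a_CNT (F k : Type) [Field F] [Fintype F] [Field k] [Algebra F k] [IsAlgClosed k]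
    [Algebra.IsAlgebraic F k] : S_CNT F k := by
  intro M hM hm
  obtain ⟨Y, hY⟩ := s_SOL F k M hM hm
  exact a_CN1 M Y hM hm hY

theorem a_RHB (F : Type) [Field F] [Fintype F] : S_RHB F :=
  s_RHB F (AlgebraicClosure F) (a_CNT F _) (s_PTS F _) (s_NMI F _) (s_DIS F (s_CRD F)) (s_SZR F (s_DIS F (s_CRD F))) (s_LGB F)
    s_NWT s_PWS

theorem a_ANB (F : Type) [Field F] [Fintype F] : S_ANB F := by
  have CRD := s_CRD F
  have DIS := s_DIS F CRD
  have LGB := s_LGB F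
  have LGM := s_LGM F LGB
  have PRC := s_PRC F CRD LGB
  have TRV := s_TRV F PRC
  have BDC := s_BDC F DIS
  have SQF := s_SQF F PRC
  have CNV := s_CNV F
  have PAR := s_PAR F DIS
  have MOB := s_MOB F s_MAJ s_EXB (a_RHB F) TRV BDC LGM
  have MOP := s_MOP F s_MAJ s_EXB LGM PRC
  have WSM := s_WSM F CNV SQF MOB MOP BDC
  have ANA := s_ANA F WSM PAR
  exact s_ANB F ANA

theorem a_FB2 (F : Type) [Field F] [Fintype F] : S_FB2 F :=
  s_FB2 F (s_CL2 F) (s_RN2 F s_LC0 s_LC2 (s_SY2 F)) (s_FSM F (a_ANB F) (s_CRD F)) (s_CRD F)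

theorem a_FB3 (F : Type) [Field F] [Fintype F] : S_FB3 F :=
  s_FB3 F (s_CL3 F) (s_RN3 F s_LC0 s_LC3 (s_SY3 F)) (s_FSM F (a_ANB F) (s_CRD F)) (s_PHI F (s_CRD F))
    (s_CRD F)

theorem a_rn (F : Type) [Field F] (n : ℕ) (W : WeierstrassCurve F[X]) :
    rootNumber n W = 1 ∨ rootNumber n W = -1 := neg_one_pow_eq_or ℤ _

theorem a_lim (F : Type) [Field F] [Fintype F] (θ : ℝ) (hθ : 0 < θ)
    (h : ∀ ε : ℝ, 0 < ε → ∃ C : ℝ, 0 < C ∧ ∀ n : ℕ, 1 ≤ n →
      (Fam F n).Finite ∧ 1 ≤ (Fam F n).ncard ∧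
      |(({W ∈ Fam F n | rootNumber n W = 1}.ncard : ℝ)) -
        ({W ∈ Fam F n | rootNumber n W = -1}.ncard : ℝ)| ≤
        C * (Fintype.card F : ℝ) ^ (-(θ - ε) * n) * (Fam F n).ncard) :
    Filter.Tendsto (fun n : ℕ => (({W ∈ Fam F n | rootNumber n W = 1}.ncard : ℝ)) /
      (Fam F n).ncard) Filter.atTop (nhds (1 / 2)) := by
  obtain ⟨C, hC, hb⟩ := h (θ / 2) (by positivity)
  have hq : (1 : ℝ) < Fintype.card F := by exact_mod_cast Fintype.one_lt_card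
  have hr : (Fintype.card F : ℝ) ^ (-(θ / 2)) < 1 :=
    Real.rpow_lt_one_of_one_lt_of_neg hq (by linarith)
  have hr0 : 0 ≤ (Fintype.card F : ℝ) ^ (-(θ / 2)) := by positivity
  have hlim : Filter.Tendsto (fun n : ℕ => C / 2 * ((Fintype.card F : ℝ) ^ (-(θ / 2))) ^ n)
      Filter.atTop (nhds 0) := by
    have := (tendsto_pow_atTop_nhds_zero_of_lt_one hr0 hr).const_mul (C / 2)
    simpa using this
  rw [tendsto_iff_norm_sub_tendsto_zero]
  refine squeeze_zero' (Filter.Eventually.of_forall fun n => norm_nonneg _) ?_ hlim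
  filter_upwards [Filter.eventually_ge_atTop 1] with n hn
  obtain ⟨hfin, hpos, hle⟩ := hb n hn
  have hN : (0 : ℝ) < ((Fam F n).ncard : ℝ) := by exact_mod_cast hpos
  have hsum : (({W ∈ Fam F n | rootNumber n W = 1}.ncard : ℝ)) +
      ({W ∈ Fam F n | rootNumber n W = -1}.ncard : ℝ) = (Fam F n).ncard := by
    have hun : {W ∈ Fam F n | rootNumber n W = 1} ∪ {W ∈ Fam F n | rootNumber n W = -1} =
        Fam F n := by
      ext W
      simp only [Set.mem_union, Set.mem_ofPred_eq]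
      constructor
      · rintro (h | h)
        · exact h.1
        · exact h.1
      · intro h
        rcases a_rn F n W with h1 | h1
        · exact Or.inl ⟨h, h1⟩
        · exact Or.inr ⟨h, h1⟩
    have hdis : Disjoint {W ∈ Fam F n | rootNumber n W = 1}
        {W ∈ Fam F n | rootNumber n W = -1} := by
      rw [Set.disjoint_left]
      rintro W ⟨_, h1⟩ ⟨_, h2⟩
      rw [h1] at h2
      norm_num at h2
    have := Set.ncard_union_eq hdis (hfin.subset fun W hW => hW.1) (hfin.subset fun W hW => hW.1)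
    rw [hun] at this
    rw [this]
    push_cast
    ring
  have hid : (({W ∈ Fam F n | rootNumber n W = 1}.ncard : ℝ)) / (Fam F n).ncard - 1 / 2 =
      ((({W ∈ Fam F n | rootNumber n W = 1}.ncard : ℝ)) -
        ({W ∈ Fam F n | rootNumber n W = -1}.ncard : ℝ)) / (2 * (Fam F n).ncard) := by
    rw [← hsum] at hN ⊢
    field_simp
    ring
  rw [hid, Real.norm_eq_abs, abs_div, abs_of_pos (by positivity : (0 : ℝ) < 2 * (Fam F n).ncard),
    div_le_iff₀ (by positivity)]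
  have hpw : (Fintype.card F : ℝ) ^ (-(θ - θ / 2) * n) =
      ((Fintype.card F : ℝ) ^ (-(θ / 2))) ^ n := by
    rw [← Real.rpow_natCast, ← Real.rpow_mul (by positivity)]
    congr 1
    ring
  rw [hpw] at hle
  calc _ ≤ _ := hle
    _ = _ := by ring

theorem a_final (F : Type) [Field F] [Fintype F] (θ : ℝ)
    (h : ((2 : F) = 0 ∧ θ = 1 / 2) ∨ ((3 : F) = 0 ∧ θ = 1)) :
    (∀ ε : ℝ, 0 < ε → ∃ C : ℝ, 0 < C ∧ ∀ (n : ℕ) (a₁ a₂ a₃ : F[X]), 1 ≤ n →
      |∑ p ∈ Fib n a₁ a₂ a₃, (rootNumber n (WeierstrassCurve.mk a₁ a₂ a₃ p.1 p.2) : ℝ)| ≤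
        C * (Fintype.card F : ℝ) ^ (-(θ - ε) * n) * (Fib n a₁ a₂ a₃).card) ∧
    (∀ ε : ℝ, 0 < ε → ∃ C : ℝ, 0 < C ∧ ∀ n : ℕ, 1 ≤ n →
      (Fam F n).Finite ∧ 1 ≤ (Fam F n).ncard ∧
      |(({W ∈ Fam F n | rootNumber n W = 1}.ncard : ℝ)) -
        ({W ∈ Fam F n | rootNumber n W = -1}.ncard : ℝ)| ≤
        C * (Fintype.card F : ℝ) ^ (-(θ - ε) * n) * (Fam F n).ncard) ∧
    Filter.Tendsto (fun n : ℕ => (({W ∈ Fam F n | rootNumber n W = 1}.ncard : ℝ)) /
      (Fam F n).ncard) Filter.atTop (nhds (1 / 2)) := by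
  have h1 : S_FBT F θ := by
    rcases h with ⟨h, rfl⟩ | ⟨h, rfl⟩
    · exact a_FB2 F h
    · exact a_FB3 F h
  have hθ : 0 < θ := by
    rcases h with ⟨_, h⟩ | ⟨_, h⟩ <;> rw [h] <;> norm_num
  exact ⟨h1, s_AVG F θ h1, a_lim F θ hθ (s_AVG F θ h1)⟩

end Pool.RN
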